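import Mathlib
import Pool.Agent.Q98.SG.F

/-!
# The product criterion in an extension of the trace field
-/

set_option autoImplicit false

open Polynomial NumberField

namespace Pool.Agent.J4H53.VH

open Pool.Agent.W738.SAL Pool.Agent.Q98.SG

section

variable {β : ℝ} {L : Type} [Field L] [NumberField L] (ι : TF β →ₐ[ℚ] L)

open Classical in
/-- the number of embeddings above the real one -/
noncomputable def rr : ℕ := Fintype.card {φ : L →ₐ[ℚ] ℂ // φ.comp ι = φ₀ β}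

lemma fib [FiniteDimensional ℚ (TF β)] :
    rr ι * Module.finrank ℚ (TF β) = Module.finrank ℚ L := by
  classical
  let _ : Algebra (TF β) L := ι.toRingHom.toAlgebra
  let _ : Algebra (TF β) ℂ := (φ₀ β).toRingHom.toAlgebra
  have hfd : FiniteDimensional (TF β) L := FiniteDimensional.right ℚ (TF β) L
  have e : {φ : L →ₐ[ℚ] ℂ // φ.comp ι = φ₀ β} ≃ (L →ₐ[TF β] ℂ) :=
    { toFun := fun φ => { φ.1.toRingHom with commutes' := fun x => AlgHom.congr_fun φ.2 x }
      invFun := fun ψ => ⟨ψ.toRingHom.toRatAlgHom, by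
        ext x
        exact ψ.commutes x⟩
      left_inv := fun φ => by
        apply Subtype.ext
        ext x
        rfl
      right_inv := fun ψ => by
        ext x
        rfl }
  have h1 : rr ι = Module.finrank (TF β) L := by
    rw [← AlgHom.card (TF β) L ℂ, rr]
    exact Fintype.card_congr e
  rw [h1, mul_comm]
  exact Module.finrank_mul_finrank ℚ (TF β) L

lemma prod_ite_P {κ : Type*} [Fintype κ] (P : κ → Prop) [DecidablePred P] (A : ℝ) :
    ∏ i : κ, (if P i then A else 4) = (A / 4) ^ (Fintype.card {i // P i}) * 4 ^ Fintype.card κ := by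
  have h1 : ∀ i : κ, (if P i then A else 4) = (if P i then A / 4 else 1) * 4 := by
    intro i
    split_ifs <;> ring
  rw [Finset.prod_congr rfl (fun i _ => h1 i), Finset.prod_mul_distrib, Finset.prod_ite,
    Finset.prod_const_one, mul_one, Finset.prod_const, Finset.prod_const, Fintype.card_subtype,
    Finset.card_univ]

lemma φ_compL (σ : L ≃ₐ[ℚ] L) (φ : L →ₐ[ℚ] ℂ) (m : ℕ) :
    φ (aeval (σ (ι (tt β))) (dickson 1 (1 : ℤ) m)) =
      ((φ.comp σ.toAlgHom).comp ι) (aeval (tt β) (dickson 1 (1 : ℤ) m)) := by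
  have h3 := aeval_algHom_apply ((σ.toAlgHom.comp ι).restrictScalars ℤ) (tt β)
    (dickson 1 (1 : ℤ) m)
  have h4 : ((σ.toAlgHom.comp ι).restrictScalars ℤ) (tt β) = σ (ι (tt β)) := rfl
  rw [h4] at h3
  rw [h3]
  rfl

variable (hβ : 1 < β) (hint : IsIntegral ℤ β) (hrec : aeval β⁻¹ (minpoly ℤ β) = 0)
  (hone : ∀ z : ℂ, aeval z (minpoly ℤ β) = 0 → z ≠ (β : ℂ) → ‖z‖ ≤ 1)

lemma exists_above [FiniteDimensional ℚ (TF β)] : ∃ φ : L →ₐ[ℚ] ℂ, φ.comp ι = φ₀ β := by
  classical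
  have h := fib ι
  have h0 : 0 < Module.finrank ℚ L := Module.finrank_pos
  have h1 : 0 < rr ι := by
    rcases Nat.eq_zero_or_pos (rr ι) with h2 | h2
    · rw [h2, zero_mul] at h; omega
    · exact h2
  obtain ⟨φ⟩ := Fintype.card_pos_iff.1 h1
  exact ⟨φ.1, φ.2⟩

include hβ hint hrec hone in
lemma z_ne_zeroL [FiniteDimensional ℚ (TF β)] (σ : L ≃ₐ[ℚ] L) {a b : ℕ} (hab : b < a) :
    aeval (ι (tt β)) (dickson 1 (1 : ℤ) a) - aeval (σ (ι (tt β))) (dickson 1 (1 : ℤ) b) ≠ 0 := by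
  intro h0
  have hβ0 : β ≠ 0 := by linarith
  obtain ⟨φ, hφ⟩ := exists_above ι
  have h3 := congrArg φ h0
  have h1 := φ_compL ι 1 φ a
  rw [AlgEquiv.one_apply] at h1
  have h2 : (φ.comp (1 : L ≃ₐ[ℚ] L).toAlgHom).comp ι = φ₀ β := by
    rw [← hφ]; rfl
  rw [h2] at h1
  rw [map_zero, map_sub, h1, φ₀_dickson hβ0, φ_compL, sub_eq_zero] at h3
  by_cases h4 : (φ.comp σ.toAlgHom).comp ι = φ₀ β
  · rw [h4, φ₀_dickson hβ0] at h3
    have h5 : U β a = U β b := by exact_mod_cast h3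
    have := U_lt hβ hab
    linarith
  · have h5 := norm_φ_other hβ hint hrec hone h4 b
    rw [← h3, Complex.norm_real, Real.norm_eq_abs] at h5
    have h6 := U_two_lt hβ (show 1 ≤ a by omega)
    have h7 := le_abs_self (U β a)
    linarith

include hβ hint hrec hone in
lemma prod_boundL [FiniteDimensional ℚ (TF β)] (σ : L ≃ₐ[ℚ] L) {a b : ℕ} (hpi : 1 ≤ a)
    (hpj : 1 ≤ b) :
    ∏ φ : L →ₐ[ℚ] ℂ, ‖φ (aeval (ι (tt β)) (dickson 1 (1 : ℤ) a) -
      aeval (σ (ι (tt β))) (dickson 1 (1 : ℤ) b))‖ ≤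
      ((U β a + 2) * (U β b + 2) / 16 * 4 ^ (Module.finrank ℚ (TF β))) ^ (rr ι) := by
  classical
  have hβ0 : β ≠ 0 := by linarith
  have hval : ∀ (ψ : TF β →ₐ[ℚ] ℂ) (c : ℕ), 1 ≤ c →
      ‖ψ (aeval (tt β) (dickson 1 (1 : ℤ) c))‖ ≤ (if ψ = φ₀ β then U β c + 2 else 4) - 2 := by
    intro ψ c hc
    split_ifs with h
    · rw [h, φ₀_dickson hβ0, Complex.norm_real, Real.norm_eq_abs,
        abs_of_pos (by linarith [U_two_lt hβ hc])]
      linarith
    · have := norm_φ_other hβ hint hrec hone h c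
      linarith
  have hup : ∀ φ : L →ₐ[ℚ] ℂ, ‖φ (aeval (ι (tt β)) (dickson 1 (1 : ℤ) a) -
      aeval (σ (ι (tt β))) (dickson 1 (1 : ℤ) b))‖ ≤
      ((if φ.comp ι = φ₀ β then U β a + 2 else 4) *
        (if (φ.comp σ.toAlgHom).comp ι = φ₀ β then U β b + 2 else 4)) * (1 / 4) := by
    intro φ
    have h1 := φ_compL ι 1 φ a
    rw [AlgEquiv.one_apply] at h1
    have h3 : ‖φ (aeval (ι (tt β)) (dickson 1 (1 : ℤ) a))‖ ≤
        (if φ.comp ι = φ₀ β then U β a + 2 else 4) - 2 := by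
      rw [h1]
      exact hval (φ.comp ι) a hpi
    have h4 : ‖φ (aeval (σ (ι (tt β))) (dickson 1 (1 : ℤ) b))‖ ≤
        (if (φ.comp σ.toAlgHom).comp ι = φ₀ β then U β b + 2 else 4) - 2 := by
      rw [φ_compL]
      exact hval _ b hpj
    have h5 : ‖φ (aeval (ι (tt β)) (dickson 1 (1 : ℤ) a) -
      aeval (σ (ι (tt β))) (dickson 1 (1 : ℤ) b))‖ ≤
        ‖φ (aeval (ι (tt β)) (dickson 1 (1 : ℤ) a))‖ +
        ‖φ (aeval (σ (ι (tt β))) (dickson 1 (1 : ℤ) b))‖ := by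
      rw [map_sub]
      exact norm_sub_le _ _
    have h6 : 4 ≤ (if φ.comp ι = φ₀ β then U β a + 2 else 4) := by
      split_ifs
      · linarith [U_two_lt hβ hpi]
      · exact le_refl _
    have h7 : 4 ≤ (if (φ.comp σ.toAlgHom).comp ι = φ₀ β then U β b + 2 else 4) := by
      split_ifs
      · linarith [U_two_lt hβ hpj]
      · exact le_refl _
    nlinarith [mul_nonneg (sub_nonneg.2 h6) (sub_nonneg.2 h7)]
  have hprod := Finset.prod_le_prod (s := Finset.univ) (fun φ _ => norm_nonneg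
    (φ (aeval (ι (tt β)) (dickson 1 (1 : ℤ) a) -
      aeval (σ (ι (tt β))) (dickson 1 (1 : ℤ) b)))) (fun φ _ => hup φ)
  let e : (L →ₐ[ℚ] ℂ) ≃ (L →ₐ[ℚ] ℂ) :=
    { toFun := fun φ => φ.comp σ.toAlgHom
      invFun := fun φ => φ.comp σ.symm.toAlgHom
      left_inv := fun φ => by
        ext x
        change φ (σ (σ.symm x)) = φ x
        rw [AlgEquiv.apply_symm_apply]
      right_inv := fun φ => by
        ext x
        change φ (σ.symm (σ x)) = φ x
        rw [AlgEquiv.symm_apply_apply] }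
  have hre : ∏ φ : L →ₐ[ℚ] ℂ, (if (φ.comp σ.toAlgHom).comp ι = φ₀ β then U β b + 2 else 4) =
      ∏ φ : L →ₐ[ℚ] ℂ, (if φ.comp ι = φ₀ β then U β b + 2 else 4) :=
    Fintype.prod_equiv e _ _ (fun φ => rfl)
  rw [Finset.prod_mul_distrib, Finset.prod_mul_distrib, hre, prod_ite_P, prod_ite_P,
    Finset.prod_const, Finset.card_univ, AlgHom.card ℚ L ℂ] at hprod
  refine hprod.trans (le_of_eq ?_)
  have hr : Fintype.card {φ : L →ₐ[ℚ] ℂ // φ.comp ι = φ₀ β} = rr ι := by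
    rw [rr]
  rw [hr, ← fib ι]
  set n := Module.finrank ℚ (TF β) with hn
  set r := rr ι
  have h9 : (4:ℝ) ^ (r * n) * (1 / 4) ^ (r * n) = 1 := by rw [← mul_pow]; norm_num
  calc ((U β a + 2) / 4) ^ r * 4 ^ (r * n) * (((U β b + 2) / 4) ^ r * 4 ^ (r * n)) *
        (1 / 4) ^ (r * n)
      = ((U β a + 2) / 4 * ((U β b + 2) / 4)) ^ r * 4 ^ (r * n) *
        (4 ^ (r * n) * (1 / 4) ^ (r * n)) := by rw [mul_pow]; ring
    _ = ((U β a + 2) / 4 * ((U β b + 2) / 4)) ^ r * (4 ^ n) ^ r := by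
        rw [h9, mul_one, mul_comm r n, pow_mul]
    _ = _ := by
        rw [← mul_pow]
        congr 1
        ring

end

end Pool.Agent.J4H53.VH
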