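import Mathlib
import Pool.Agent.J4H53.VH.P
import Pool.Agent.J4H53.VG.Fr

/-!
# The inertia groups of an extension of the trace field
-/

set_option autoImplicit false

open Polynomial NumberField
open scoped Pointwise Nat

namespace Pool.Agent.J4H53.VH

open Pool.Agent.W738.SAL Pool.Agent.Q98.SG Pool.Agent.J4H53.VG

/-- the trace `β + β⁻¹` as an element of the ring of integers -/
noncomputable def TL {β : ℝ} {L : Type} [Field L] [NumberField L] (ι : TF β →ₐ[ℚ] L)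
    (hP : IsPerron β) (hrec : IsReciprocal β) : 𝓞 L :=
  ⟨ι (tt β), (tt_integral hP hrec).map (ι.restrictScalars ℤ)⟩

/-- the product criterion -/
theorem prodCritL {β : ℝ} (hP : IsPerron β) (hrec : IsReciprocal β)
    (hinf : ¬ (ParryPowers β).Finite) {L : Type} [Field L] [NumberField L] (ι : TF β →ₐ[ℚ] L)
    {p : ℕ} (hp : p.Prime) {i j : ℕ} (S : Finset (L ≃ₐ[ℚ] L)) (hij : j < i)
    (hdiv : (∏ σ ∈ S, ((TL ι hP hrec) ^ (p ^ (i - j)) - σ • (TL ι hP hrec))) ^ (p ^ j) ∈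
      Ideal.span {(p : 𝓞 L)}) :
    (p : ℝ) ^ (Module.finrank ℚ (TF β)) ≤
      ((U β (p ^ i) + 2) * (U β (p ^ j) + 2) / 16 * 4 ^ (Module.finrank ℚ (TF β))) ^ S.card := by
  classical
  have : Fact p.Prime := ⟨hp⟩
  have hfd := tf_finite hP hrec
  have hone : ∀ z : ℂ, aeval z (minpoly ℤ β) = 0 → z ≠ (β : ℂ) → ‖z‖ ≤ 1 :=
    fun z hz hne => one_of_inf hP hinf hz hne
  have hji : j ≤ i := hij.le
  set T : 𝓞 L := TL ι hP hrec with hT
  set t : L := ι (tt β) with ht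
  set zz : (L ≃ₐ[ℚ] L) → L := fun σ =>
    aeval t (dickson 1 (1 : ℤ) (p ^ i)) - aeval (σ t) (dickson 1 (1 : ℤ) (p ^ j)) with hzz
  set z' : (L ≃ₐ[ℚ] L) → 𝓞 L := fun σ =>
    aeval T (dickson 1 (1 : ℤ) (p ^ i)) - aeval (σ • T) (dickson 1 (1 : ℤ) (p ^ j)) with hz'
  have hcoe : ∀ σ, algebraMap (𝓞 L) L (z' σ) = zz σ := by
    intro σ
    rw [hz', hzz]
    simp only [map_sub]
    rw [← aeval_algebraMap_apply, ← aeval_algebraMap_apply]
    rfl
  have hdiv' : (∏ σ ∈ S, z' σ) ∈ Ideal.span {(p : 𝓞 L)} := by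
    rw [← Ideal.Quotient.eq_zero_iff_mem] at hdiv ⊢
    rw [← hdiv, map_pow, map_prod, map_prod, ← Finset.prod_pow]
    refine Finset.prod_congr rfl fun σ _ => ?_
    rw [hz']
    simp only
    rw [← mk_sub_pow, map_sub, mk_dickson, mk_dickson, map_pow, ← pow_mul, ← pow_add,
      Nat.sub_add_cancel hji]
  obtain ⟨y, hy⟩ := Ideal.mem_span_singleton.1 hdiv'
  have hy2 : ∏ σ ∈ S, zz σ = p * algebraMap (𝓞 L) L y := by
    have h1 := congrArg (algebraMap (𝓞 L) L) hy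
    rw [map_prod, map_mul, map_natCast] at h1
    rw [← h1]
    exact Finset.prod_congr rfl fun σ _ => (hcoe σ).symm
  have hpi : 1 ≤ p ^ i := Nat.one_le_pow _ _ hp.pos
  have hpj : 1 ≤ p ^ j := Nat.one_le_pow _ _ hp.pos
  have hne : ∏ σ ∈ S, zz σ ≠ 0 := by
    rw [Finset.prod_ne_zero_iff]
    intro σ hσ
    exact z_ne_zeroL ι hP.1 hP.2.1 hrec hone σ (Nat.pow_lt_pow_right hp.one_lt hij)
  have hlow := pow_le_prod (p := p) y.2 hy2 hne
  set n := Module.finrank ℚ (TF β) with hn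
  set cst := (U β (p ^ i) + 2) * (U β (p ^ j) + 2) / 16 * 4 ^ n with hcst
  have hcst0 : 0 ≤ cst := by
    have h0 : 0 < β := lt_trans one_pos hP.1
    have h1 := U_two_le h0 (p ^ i)
    have h2 := U_two_le h0 (p ^ j)
    positivity
  have h1 : ∏ ψ : L →ₐ[ℚ] ℂ, ‖ψ (∏ σ ∈ S, zz σ)‖ =
      ∏ σ ∈ S, ∏ ψ : L →ₐ[ℚ] ℂ, ‖ψ (zz σ)‖ := by
    rw [Finset.prod_comm]
    refine Finset.prod_congr rfl fun ψ _ => ?_
    rw [map_prod, norm_prod]
  have h2 : ∏ σ ∈ S, ∏ ψ : L →ₐ[ℚ] ℂ, ‖ψ (zz σ)‖ ≤ ∏ _σ ∈ S, cst ^ (rr ι) := by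
    refine Finset.prod_le_prod (fun σ _ => Finset.prod_nonneg fun ψ _ => norm_nonneg _) ?_
    intro σ _
    exact prod_boundL ι hP.1 hP.2.1 hrec hone σ hpi hpj
  rw [Finset.prod_const] at h2
  rw [h1] at hlow
  have h3 := hlow.trans h2
  have e1 : (cst ^ (rr ι)) ^ S.card = (cst ^ S.card) ^ (rr ι) := by
    rw [← pow_mul, ← pow_mul, mul_comm]
  rw [e1, ← fib ι, mul_comm (rr ι), pow_mul] at h3
  have hr0 : rr ι ≠ 0 := by
    intro h0
    have h := fib ι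
    have h4 : 0 < Module.finrank ℚ L := Module.finrank_pos
    rw [h0, zero_mul] at h
    omega
  exact (pow_le_pow_iff_left₀ (by positivity) (by positivity) hr0).1 h3

/-- If infinitely many powers of `β` are Parry numbers, `L` contains the trace field and is Galois
over a field of degree at most `f`, and the `d`-th powers are central in the Galois group, then some
inertia group above each prime `p ≥ 16 ^ f` is large. -/
theorem inert_largeL {β : ℝ} (hP : IsPerron β) (hrec : IsReciprocal β)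
    (hinf : ¬ (ParryPowers β).Finite) {F L : Type} [Field F] [NumberField F] [Field L]
    [NumberField L] [Algebra F L] [IsGalois F L] (ι : TF β →ₐ[ℚ] L) {p d f A : ℕ} (hp : p.Prime)
    (hd : 0 < d) (hf0 : 0 < f) (hf : Module.finrank ℚ F ≤ f) (hpf : 16 ^ f ≤ p)
    (hcen : ∀ σ τ : L ≃ₐ[F] L, σ ^ d * τ = τ * σ ^ d)
    (hA : β ^ (2 * p ^ (f ! * d + 1)) ≤ 4 ^ A) :
    ∃ Q ∈ primesAbove L p,
      Module.finrank ℚ (TF β) ≤ A * f * Nat.card (Q.inertia (L ≃ₐ[F] L)) := by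
  classical
  have h1β := hP.1
  set n := Module.finrank ℚ (TF β) with hn
  obtain ⟨S, hSc, hS⟩ := frobs (F := F) (L := L) hp hf hcen
  obtain ⟨Q, hQ, hmax⟩ := exists_max (L := L) hp
  set e := Q.ramificationIdx ℤ with he
  have he0 : 0 < e := (term_le L hp hQ).1
  obtain ⟨k, hk1, hk2⟩ : ∃ k : ℕ, e ≤ p ^ k ∧ p ^ k ≤ p * e := by
    refine ⟨Nat.clog p e, Nat.le_pow_clog hp.one_lt _, ?_⟩
    rcases Nat.lt_or_ge 1 e with h | h
    · have h1 := Nat.pow_pred_clog_lt_self hp.one_lt h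
      have h2 : 0 < Nat.clog p e := Nat.clog_pos hp.one_lt h
      have h3 : Nat.clog p e = (Nat.clog p e).pred + 1 := by
        rw [Nat.pred_eq_sub_one]; omega
      rw [h3, pow_succ, mul_comm]
      exact Nat.mul_le_mul_left _ h1.le
    · have h1 : e = 1 := by omega
      rw [h1, Nat.clog_one_right, pow_zero, mul_one]
      exact hp.pos
  have hram : (Ideal.span {(p : 𝓞 L)}).radical ^ (p ^ k) ≤ Ideal.span {(p : 𝓞 L)} :=
    ramLe_of hp (fun P hP1 hpP => (hmax P ⟨hP1, hpP⟩).trans hk1)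
  set m := f ! * d with hm
  have hm0 : 0 < m := Nat.mul_pos (Nat.factorial_pos f) hd
  set τ : (L ≃ₐ[F] L) → (L ≃ₐ[ℚ] L) := fun σ =>
    AlgEquiv.ofRingEquiv (f := σ.toRingEquiv) (fun q => by simp) with hτ
  have hcrit := prodCritL hP hrec hinf ι hp (i := m + k) (j := k) (S.image τ) (by omega)
    (by
      rw [Nat.add_sub_cancel]
      apply hram
      apply Ideal.pow_mem_pow
      rw [Ideal.radical_eq_sInf, Ideal.mem_sInf]
      rintro J ⟨hJ1, hJ2⟩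
      have hJp : (p : 𝓞 L) ∈ J := hJ1 (Ideal.subset_span rfl)
      obtain ⟨σ, hσS, hσ⟩ := hS J ⟨hJ2, hJp⟩
      rw [← Finset.mul_prod_erase _ _ (Finset.mem_image_of_mem τ hσS)]
      exact J.mul_mem_right _ (hσ _))
  have hcard : (S.image τ).card ≤ f := Finset.card_image_le.trans hSc
  have hM1 : p ^ (m + k) ≤ p ^ (m + 1) * e := by
    calc p ^ (m + k) = p ^ m * p ^ k := pow_add _ _ _
      _ ≤ p ^ m * (p * e) := Nat.mul_le_mul_left _ hk2
      _ = p ^ (m + 1) * e := by rw [pow_succ]; ring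
  have hM2 : p ^ k ≤ p ^ (m + 1) * e :=
    (Nat.pow_le_pow_right hp.pos (by omega)).trans hM1
  have hcost := cost_le h1β hM1 hM2 n
  have hge1 : (1 : ℝ) ≤ (U β (p ^ (m + k)) + 2) * (U β (p ^ k) + 2) / 16 * 4 ^ n := by
    have h0 : 0 < β := by linarith
    have h1 := U_two_le h0 (p ^ (m + k))
    have h2 := U_two_le h0 (p ^ k)
    have h3 : (1:ℝ) ≤ 4 ^ n := one_le_pow₀ (by norm_num)
    have h4 : (1:ℝ) ≤ (U β (p ^ (m + k)) + 2) * (U β (p ^ k) + 2) / 16 := by nlinarith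
    exact one_le_mul_of_one_le_of_one_le h4 h3
  have h3 : β ^ (2 * (p ^ (m + 1) * e)) = (β ^ (2 * p ^ (m + 1))) ^ e := by
    rw [← pow_mul, mul_assoc]
  have h4 : (β ^ (2 * p ^ (m + 1))) ^ e ≤ (4 ^ A) ^ e :=
    pow_le_pow_left₀ (by positivity) hA e
  have h5 : ((4:ℝ) ^ n * 4 ^ n) ^ f ≤ (4 ^ (A * e) * 4 ^ n) ^ f := by
    have h6 : ((4:ℝ) ^ n * 4 ^ n) ^ f = ((16:ℝ) ^ f) ^ n := by
      rw [← mul_pow, ← pow_mul, ← pow_mul, mul_comm n f]; norm_num
    have h7 : ((16:ℝ) ^ f) ^ n ≤ (p : ℝ) ^ n :=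
      pow_le_pow_left₀ (by positivity) (by exact_mod_cast hpf) n
    have h8 : ((U β (p ^ (m + k)) + 2) * (U β (p ^ k) + 2) / 16 * 4 ^ n) ^ (S.image τ).card ≤
        ((U β (p ^ (m + k)) + 2) * (U β (p ^ k) + 2) / 16 * 4 ^ n) ^ f :=
      pow_le_pow_right₀ hge1 hcard
    have h9 : ((U β (p ^ (m + k)) + 2) * (U β (p ^ k) + 2) / 16 * 4 ^ n) ^ f ≤
        (β ^ (2 * (p ^ (m + 1) * e)) * 4 ^ n) ^ f :=
      pow_le_pow_left₀ (by linarith) hcost f
    have h10 : (β ^ (2 * (p ^ (m + 1) * e)) * 4 ^ n) ^ f ≤ (4 ^ (A * e) * 4 ^ n) ^ f := by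
      apply pow_le_pow_left₀ (by positivity)
      rw [h3, pow_mul (4:ℝ) A e]
      exact mul_le_mul_of_nonneg_right h4 (by positivity)
    rw [h6]
    exact h7.trans (hcrit.trans (h8.trans (h9.trans h10)))
  have h6 : (4:ℝ) ^ n * 4 ^ n ≤ 4 ^ (A * e) * 4 ^ n :=
    (pow_le_pow_iff_left₀ (by positivity) (by positivity) hf0.ne').1 h5
  have h8 : (4:ℝ) ^ n ≤ 4 ^ (A * e) := le_of_mul_le_mul_right h6 (by positivity)
  have h9 : n ≤ A * e := (pow_le_pow_iff_right₀ (by norm_num : (1:ℝ) < 4)).1 h8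
  refine ⟨Q, hQ, h9.trans ?_⟩
  have h10 := ram_rel (F := F) hp hQ
  rw [mul_assoc]
  apply Nat.mul_le_mul_left
  exact h10.trans (Nat.mul_le_mul_right _ hf)

end Pool.Agent.J4H53.VH
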