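import Mathlib
import Pool.Agent.J4H53.VH.C
import Pool.Agent.J4H53.VG.North

/-!
# Extensions of the trace field: the abelian case and the central case
-/

set_option autoImplicit false

open Polynomial NumberField
open scoped Pointwise Nat

namespace Pool.Agent.J4H53.VH

open Pool.Agent.W738.SAL Pool.Agent.Q98.SG Pool.Agent.J4H53.VG

/-- the abelian case -/
theorem thmAbL (B : ℝ) (f : ℕ) : ∃ N : ℕ, ∀ β : ℝ, IsPerron β → IsReciprocal β → β ≤ B →
    ∀ (F L : Type) [Field F] [NumberField F] [Field L] [NumberField L] [Algebra F L]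
      [IsGalois F L] (_ : TF β →ₐ[ℚ] L),
      Module.finrank ℚ F ≤ f → Module.finrank F L ≤ Module.finrank ℚ (TF β) →
      (∀ σ τ : L ≃ₐ[F] L, σ * τ = τ * σ) →
      N ≤ Module.finrank ℚ (TF β) → (ParryPowers β).Finite := by
  obtain ⟨p, hpf, hp⟩ := Nat.exists_infinite_primes (16 ^ f)
  obtain ⟨q, hqf, hq⟩ := Nat.exists_infinite_primes (p + 1)
  obtain ⟨A, hA⟩ := exists_A B (2 * p ^ (f ! * 1 + 1))
  obtain ⟨C, hC⟩ := exists_A B (2 * q ^ (f ! * 1 + 1))
  refine ⟨(A * f * p ^ (f !)) * (C * f * q ^ (f !)) + 1, ?_⟩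
  intro β hP hrec hβ F L _ _ _ _ _ _ ι hf hfin hcomm hn
  by_contra hinf
  have hfd : FiniteDimensional ℚ (TF β) := tf_finite hP hrec
  have h0 : 0 < β := lt_trans one_pos hP.1
  have hF0 : 0 < Module.finrank ℚ F := Module.finrank_pos
  have hf0 : 0 < f := hF0.trans_le hf
  have hcen : ∀ σ τ : L ≃ₐ[F] L, σ ^ 1 * τ = τ * σ ^ 1 := fun σ τ => by
    rw [pow_one]; exact hcomm σ τ
  obtain ⟨Q, hQ, h1⟩ := inert_largeL hP hrec hinf ι hp one_pos hf0 hf hpf hcen (hA β h0 hβ)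
  obtain ⟨R, hR, h2⟩ := inert_largeL hP hrec hinf ι hq one_pos hf0 hf (by omega) hcen (hC β h0 hβ)
  obtain ⟨W, hW, h3⟩ := ab_bound hp hf hcomm hQ
  obtain ⟨V, hV, h4⟩ := ab_bound hq hf hcomm hR
  have h5 := two_groups hp hq (by omega) hW hV
  have h6 : Nat.card (L ≃ₐ[F] L) = Module.finrank F L :=
    IsGalois.card_aut_eq_finrank F L
  set n := Module.finrank ℚ (TF β) with hn'
  have h8 : Nat.card (L ≃ₐ[F] L) ≤ n := by rw [h6]; exact hfin
  have hn0 : 0 < n := Module.finrank_pos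
  have h9 : n ≤ (A * f * p ^ (f !)) * Nat.card W := by
    calc n ≤ A * f * Nat.card (Q.inertia (L ≃ₐ[F] L)) := h1
      _ ≤ A * f * (p ^ (f !) * Nat.card W) := Nat.mul_le_mul_left _ h3
      _ = _ := by ring
  have h10 : n ≤ (C * f * q ^ (f !)) * Nat.card V := by
    calc n ≤ C * f * Nat.card (R.inertia (L ≃ₐ[F] L)) := h2
      _ ≤ C * f * (q ^ (f !) * Nat.card V) := Nat.mul_le_mul_left _ h4
      _ = _ := by ring
  have h11 : n * n ≤ ((A * f * p ^ (f !)) * (C * f * q ^ (f !))) * n := by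
    calc n * n ≤ ((A * f * p ^ (f !)) * Nat.card W) * ((C * f * q ^ (f !)) * Nat.card V) :=
          Nat.mul_le_mul h9 h10
      _ = ((A * f * p ^ (f !)) * (C * f * q ^ (f !))) * (Nat.card W * Nat.card V) := by ring
      _ ≤ _ := Nat.mul_le_mul_left _ (h5.trans h8)
  have h12 := Nat.le_of_mul_le_mul_right h11 hn0
  omega

/-- the orbit of the trace has at most `n` elements -/
theorem orbit_le {β : ℝ} [FiniteDimensional ℚ (TF β)] {L : Type} [Field L] [NumberField L]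
    (ι : TF β →ₐ[ℚ] L) {F : Type} [Field F] [NumberField F] [Algebra F L] :
    (MulAction.stabilizer (L ≃ₐ[F] L) (ι (tt β))).index ≤ Module.finrank ℚ (TF β) := by
  classical
  rw [MulAction.index_stabilizer]
  have hint : IsIntegral ℚ (tt β) := Algebra.IsIntegral.isIntegral _
  have h1 : minpoly ℚ (ι (tt β)) = minpoly ℚ (tt β) := minpoly.algHom_eq ι ι.injective _
  have hne : minpoly ℚ (tt β) ≠ 0 := minpoly.ne_zero hint
  have h2 : MulAction.orbit (L ≃ₐ[F] L) (ι (tt β)) ⊆ (minpoly ℚ (tt β)).rootSet L := by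
    rintro _ ⟨g, rfl⟩
    rw [mem_rootSet]
    refine ⟨hne, ?_⟩
    have h3 : aeval (ι (tt β)) (minpoly ℚ (tt β)) = 0 := by
      rw [← h1]; exact minpoly.aeval _ _
    have h4 : (g • ι (tt β)) = (g.toRingEquiv.toRingHom.toRatAlgHom : L →ₐ[ℚ] L) (ι (tt β)) := rfl
    change aeval (g • ι (tt β)) (minpoly ℚ (tt β)) = 0
    rw [h4, aeval_algHom_apply, h3, map_zero]
  refine (Set.ncard_le_ncard h2 (rootSet_finite _ _)).trans ?_
  rw [rootSet_def, Set.ncard_coe_finset]
  refine (Multiset.toFinset_card_le _).trans ?_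
  refine (card_roots' _).trans ?_
  rw [natDegree_map]
  exact minpoly.natDegree_le _

end Pool.Agent.J4H53.VH
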