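import Mathlib
import Pool.Agent.J4H53.VH.D

/-!
# The passage to an abelian extension containing the trace field
-/

set_option autoImplicit false

open Polynomial NumberField
open scoped Pointwise Nat

namespace Pool.Agent.J4H53.VH

open Pool.Agent.W738.SAL Pool.Agent.Q98.SG Pool.Agent.J4H53.VG

/-- the centre gives an abelian extension containing the trace field -/
theorem descend {β : ℝ} (hP : IsPerron β) (hrec : IsReciprocal β) {F L : Type} [Field F]
    [NumberField F] [Field L] [NumberField L] [Algebra F L] [IsGalois F L] (ι : TF β →ₐ[ℚ] L)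
    (hgen : ∀ z : L ≃ₐ[F] L, (∀ g : L ≃ₐ[F] L, z (g (ι (tt β))) = g (ι (tt β))) → z = 1)
    {f c : ℕ} (hf : Module.finrank ℚ F ≤ f)
    (hc : Module.finrank ℚ (TF β) ≤ c * Nat.card (Subgroup.center (L ≃ₐ[F] L))) :
    ∃ (E K : Type) (_ : Field E) (_ : NumberField E) (_ : Field K) (_ : NumberField K)
      (_ : Algebra E K) (_ : IsGalois E K) (_ : TF β →ₐ[ℚ] K),
      Module.finrank ℚ E ≤ f * c ∧ Module.finrank E K ≤ Module.finrank ℚ (TF β) ∧
      ∀ σ τ : K ≃ₐ[E] K, σ * τ = τ * σ := by
  classical
  have hfd : FiniteDimensional ℚ (TF β) := tf_finite hP hrec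
  set x : L := ι (tt β) with hx
  set n := Module.finrank ℚ (TF β) with hn
  set Z := Subgroup.center (L ≃ₐ[F] L) with hZ
  set S := MulAction.stabilizer (L ≃ₐ[F] L) x with hS
  set M := S ⊔ Z with hM
  set E := IntermediateField.fixedField M with hE
  have hnE : NumberField E := NumberField.of_intermediateField E
  let e := IntermediateField.subgroupEquivAlgEquiv M
  have he : ∀ (m : M) (y : L), (e m) y = (m : L ≃ₐ[F] L) y := fun m y => rfl
  -- commutation with the centre
  have hcomm : ∀ (γ : L ≃ₐ[E] L) (z : L ≃ₐ[F] L), z ∈ Z → ∀ y : L, γ (z y) = z (γ y) := by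
    intro γ z hz y
    obtain ⟨m, rfl⟩ := e.surjective γ
    rw [he, he]
    have h1 : (m : L ≃ₐ[F] L) * z = z * m := (Subgroup.mem_center_iff.1 hz) m
    exact congrArg (fun g : L ≃ₐ[F] L => g y) h1
  have horb : ∀ γ : L ≃ₐ[E] L, ∃ z ∈ Z, γ x = z x := by
    intro γ
    obtain ⟨m, rfl⟩ := e.surjective γ
    have hm : (m : L ≃ₐ[F] L) ∈ S ⊔ Z := m.2
    obtain ⟨s, hs, z, hz, hsz⟩ := Subgroup.mem_sup_of_normal_right.1 hm
    refine ⟨z, hz, ?_⟩
    rw [he, ← hsz]
    have h1 : s * z = z * s := (Subgroup.mem_center_iff.1 hz) s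
    rw [h1]
    have h2 : s x = x := MulAction.mem_stabilizer_iff.1 hs
    change z (s x) = z x
    rw [h2]
  set T := MulAction.stabilizer (L ≃ₐ[E] L) x with hT
  have hTmem : ∀ γ : L ≃ₐ[E] L, γ ∈ T ↔ γ x = x := fun γ => MulAction.mem_stabilizer_iff
  have hTn : T.Normal := by
    refine ⟨fun h hh g => ?_⟩
    rw [hTmem] at hh ⊢
    obtain ⟨z, hz, hgz⟩ := horb g⁻¹
    change g (h (g⁻¹ x)) = x
    rw [hgz, hcomm h z hz, hh, ← hgz]
    change (g * g⁻¹) x = x
    rw [mul_inv_cancel]
    rfl
  set K := IntermediateField.fixedField T with hK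
  have hnK : NumberField K := NumberField.of_intermediateField K
  have hιK : ∀ y : TF β, ι y ∈ K := by
    intro y
    rw [hK, IntermediateField.mem_fixedField_iff]
    intro s hs
    have h1 : ((s.toRingEquiv.toRingHom.toRatAlgHom : L →ₐ[ℚ] L).comp ι) = ι := by
      apply hom_ext
      exact (hTmem s).1 hs
    exact AlgHom.congr_fun h1 y
  let ι' : TF β →+* K :=
    { toFun := fun y => (⟨ι y, hιK y⟩ : K)
      map_one' := Subtype.ext (map_one ι)
      map_mul' := fun a b => Subtype.ext (map_mul ι a b)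
      map_zero' := Subtype.ext (map_zero ι)
      map_add' := fun a b => Subtype.ext (map_add ι a b) }
  refine ⟨E, K, inferInstance, hnE, inferInstance, hnK, inferInstance, inferInstance,
    ι'.toRatAlgHom, ?_, ?_, ?_⟩
  · -- the degree of `E`
    have hSi : S.index ≤ n := orbit_le ι (F := F)
    have h1 : Nat.card S * S.index = Nat.card (L ≃ₐ[F] L) := Subgroup.card_mul_index S
    have h2 : Nat.card (L ≃ₐ[F] L) = Module.finrank F L := IsGalois.card_aut_eq_finrank F L
    have h3 : Module.finrank ℚ F * Module.finrank F L = Module.finrank ℚ L :=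
      Module.finrank_mul_finrank ℚ F L
    have h4 : Module.finrank ℚ E * Module.finrank E L = Module.finrank ℚ L :=
      Module.finrank_mul_finrank ℚ E L
    have h5 : Module.finrank E L = Nat.card M := IntermediateField.finrank_fixedField_eq_card M
    have hdis : Disjoint S Z := by
      rw [Subgroup.disjoint_def]
      intro z hzS hzZ
      apply hgen
      intro g
      have h6 : z x = x := MulAction.mem_stabilizer_iff.1 hzS
      have h7 : g * z = z * g := (Subgroup.mem_center_iff.1 hzZ) g
      have h8 : g (z x) = z (g x) := congrArg (fun k : L ≃ₐ[F] L => k x) h7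
      rw [← h8, h6]
    have h6 : Nat.card S * Nat.card Z ≤ Nat.card M := by
      rw [← Nat.card_prod]
      have hinj := Subgroup.mul_injective_of_disjoint hdis
      have hmem : ∀ g : S × Z, (g.1 : L ≃ₐ[F] L) * g.2 ∈ M := fun g =>
        M.mul_mem ((le_sup_left : S ≤ M) g.1.2) ((le_sup_right : Z ≤ M) g.2.2)
      exact Nat.card_le_card_of_injective (fun g : S × Z => (⟨_, hmem g⟩ : M))
        (fun a b hab => hinj (congrArg Subtype.val hab))
    have hS0 : 0 < Nat.card S := Nat.card_pos
    have hZ0 : 0 < Nat.card Z := Nat.card_pos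
    have h7 : (Module.finrank ℚ E * Nat.card Z) * Nat.card S ≤ (f * n) * Nat.card S := by
      calc (Module.finrank ℚ E * Nat.card Z) * Nat.card S =
            Module.finrank ℚ E * (Nat.card S * Nat.card Z) := by ring
        _ ≤ Module.finrank ℚ E * Nat.card M := Nat.mul_le_mul_left _ h6
        _ = Module.finrank ℚ F * (Nat.card S * S.index) := by rw [← h5, h4, ← h3, ← h2, h1]
        _ ≤ f * (Nat.card S * n) :=
            Nat.mul_le_mul hf (Nat.mul_le_mul_left _ hSi)
        _ = _ := by ring
    have h8 := Nat.le_of_mul_le_mul_right h7 hS0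
    have h9 : Module.finrank ℚ E * Nat.card Z ≤ (f * c) * Nat.card Z := by
      calc Module.finrank ℚ E * Nat.card Z ≤ f * n := h8
        _ ≤ f * (c * Nat.card Z) := Nat.mul_le_mul_left _ hc
        _ = _ := by ring
    exact Nat.le_of_mul_le_mul_right h9 hZ0
  · have h1 : Nat.card (K ≃ₐ[E] K) = Module.finrank E K := IsGalois.card_aut_eq_finrank E K
    rw [← h1, ← Nat.card_congr (IsGalois.normalAutEquivQuotient T).toEquiv]
    exact orbit_le ι (F := E)
  · intro σ τ
    obtain ⟨a, rfl⟩ := (IsGalois.normalAutEquivQuotient T).surjective σ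
    obtain ⟨b, rfl⟩ := (IsGalois.normalAutEquivQuotient T).surjective τ
    rw [← map_mul, ← map_mul]
    congr 1
    obtain ⟨g, rfl⟩ := QuotientGroup.mk_surjective a
    obtain ⟨h, rfl⟩ := QuotientGroup.mk_surjective b
    rw [← QuotientGroup.mk_mul, ← QuotientGroup.mk_mul, QuotientGroup.eq, hTmem]
    obtain ⟨z, hz, hgz⟩ := horb g
    obtain ⟨w, hw, hhw⟩ := horb h
    have h1 : (h * g) x = (g * h) x := by
      change h (g x) = g (h x)
      rw [hgz, hhw, hcomm h z hz, hcomm g w hw, hgz, hhw]
      have h2 : z * w = w * z := (Subgroup.mem_center_iff.1 hw) z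
      exact congrArg (fun k : L ≃ₐ[F] L => k x) h2
    rw [AlgEquiv.mul_apply, h1]
    change ((g * h)⁻¹ * (g * h)) x = x
    rw [inv_mul_cancel]
    rfl

end Pool.Agent.J4H53.VH
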