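import Mathlib
import Pool.Agent.J4H53.VH.E

/-!
# Traces in Galois extensions with finite exponent modulo the centre
-/

set_option autoImplicit false

open Polynomial NumberField
open scoped Pointwise Nat

namespace Pool.Agent.J4H53.VH

open Pool.Agent.W738.SAL Pool.Agent.Q98.SG Pool.Agent.J4H53.VG

/-- the case that the conjugates of the trace generate the extension -/
theorem thmCenL (B : ℝ) (d f : ℕ) (hd : 0 < d) : ∃ N : ℕ, ∀ β : ℝ, IsPerron β → IsReciprocal β →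
    β ≤ B → ∀ (F L : Type) [Field F] [NumberField F] [Field L] [NumberField L] [Algebra F L]
      [IsGalois F L] (ι : TF β →ₐ[ℚ] L),
      Module.finrank ℚ F ≤ f → (∀ σ τ : L ≃ₐ[F] L, σ ^ d * τ = τ * σ ^ d) →
      (∀ z : L ≃ₐ[F] L, (∀ g : L ≃ₐ[F] L, z (g (ι (tt β))) = g (ι (tt β))) → z = 1) →
      N ≤ Module.finrank ℚ (TF β) → (ParryPowers β).Finite := by
  obtain ⟨p, hpf', hp⟩ := Nat.exists_infinite_primes (16 ^ f + (d + 1))
  have hpf : 16 ^ f ≤ p := (Nat.le_add_right _ _).trans hpf'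
  have hdp : d < p := (Nat.le_add_left (d + 1) (16 ^ f)).trans hpf'
  obtain ⟨A, hA⟩ := exists_A B (2 * p ^ (f ! * d + 1))
  obtain ⟨N, hN⟩ := thmAbL B (f * (A * f * d))
  refine ⟨N, ?_⟩
  intro β hP hrec hβ F L _ _ _ _ _ _ ι hf hcen hgen hn
  by_contra hinf
  have hfd : FiniteDimensional ℚ (TF β) := tf_finite hP hrec
  have h0 : 0 < β := lt_trans one_pos hP.1
  have hF0 : 0 < Module.finrank ℚ F := Module.finrank_pos
  have hf0 : 0 < f := hF0.trans_le hf
  obtain ⟨Q, hQ, h1⟩ := inert_largeL hP hrec hinf ι hp hd hf0 hf hpf hcen (hA β h0 hβ)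
  have hQ1 := hQ.1
  have hQ0 : Q ≠ ⊥ := ne_bot_of hp hQ
  have : Finite (𝓞 L ⧸ Q) := Ideal.finiteQuotientOfFreeOfNeBot Q hQ0
  have hfa : FaithfulSMul (L ≃ₐ[F] L) (𝓞 L) :=
    (inferInstance : IsGaloisGroup (L ≃ₐ[F] L) (𝓞 F) (𝓞 L)).faithful
  have h2 : Nat.card (Q.inertia (L ≃ₐ[F] L)) ≤
      d * Nat.card (Subgroup.center (L ≃ₐ[F] L)) :=
    inertia_card_le (G := L ≃ₐ[F] L) hQ0 hp hQ.2 hd hdp hcen
  have h3 : Module.finrank ℚ (TF β) ≤ (A * f * d) * Nat.card (Subgroup.center (L ≃ₐ[F] L)) := by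
    calc Module.finrank ℚ (TF β) ≤ A * f * Nat.card (Q.inertia (L ≃ₐ[F] L)) := h1
      _ ≤ A * f * (d * Nat.card (Subgroup.center (L ≃ₐ[F] L))) := Nat.mul_le_mul_left _ h2
      _ = _ := by ring
  obtain ⟨E, K, _, _, _, _, _, _, κ, h4, h5, h6⟩ := descend hP hrec ι hgen hf h3
  exact hinf (hN β hP hrec hβ E K κ h4 h5 h6 hn)

/-- the general case -/
theorem thmL (B : ℝ) (d f : ℕ) (hd : 0 < d) : ∃ N : ℕ, ∀ β : ℝ, IsPerron β → IsReciprocal β →
    β ≤ B → ∀ (F L : Type) [Field F] [NumberField F] [Field L] [NumberField L] [Algebra F L]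
      [IsGalois F L] (_ : TF β →ₐ[ℚ] L),
      Module.finrank ℚ F ≤ f → (∀ σ τ : L ≃ₐ[F] L, σ ^ d * τ = τ * σ ^ d) →
      N ≤ Module.finrank ℚ (TF β) → (ParryPowers β).Finite := by
  classical
  obtain ⟨N, hN⟩ := thmCenL B d f hd
  refine ⟨N, ?_⟩
  intro β hP hrec hβ F L _ _ _ _ _ _ ι hf hcen hn
  set x : L := ι (tt β) with hx
  set C := (MulAction.toPermHom (L ≃ₐ[F] L) (MulAction.orbit (L ≃ₐ[F] L) x)).ker with hC
  have hCmem : ∀ z : L ≃ₐ[F] L, z ∈ C ↔ ∀ g : L ≃ₐ[F] L, z (g x) = g x := by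
    intro z
    rw [hC, MonoidHom.mem_ker]
    constructor
    · intro h g
      have h1 := congrArg (fun s : Equiv.Perm (MulAction.orbit (L ≃ₐ[F] L) x) =>
        ((s ⟨g • x, ⟨g, rfl⟩⟩ : MulAction.orbit (L ≃ₐ[F] L) x) : L)) h
      exact h1
    · intro h
      ext ⟨y, g, rfl⟩
      exact h g
  have hCn : C.Normal := MonoidHom.normal_ker _
  set K := IntermediateField.fixedField C with hK
  have hnK : NumberField K := NumberField.of_intermediateField K
  have hιK : ∀ y : TF β, ι y ∈ K := by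
    intro y
    rw [hK, IntermediateField.mem_fixedField_iff]
    intro s hs
    have h1 : ((s.toRingEquiv.toRingHom.toRatAlgHom : L →ₐ[ℚ] L).comp ι) = ι := by
      apply hom_ext
      exact (hCmem s).1 hs 1
    exact AlgHom.congr_fun h1 y
  let ι' : TF β →+* K :=
    { toFun := fun y => (⟨ι y, hιK y⟩ : K)
      map_one' := Subtype.ext (map_one ι)
      map_mul' := fun a b => Subtype.ext (map_mul ι a b)
      map_zero' := Subtype.ext (map_zero ι)
      map_add' := fun a b => Subtype.ext (map_add ι a b) }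
  have hιx : ((ι'.toRatAlgHom (tt β) : K) : L) = x := rfl
  have hval : ∀ (g : L ≃ₐ[F] L) (y : K),
      (((IsGalois.normalAutEquivQuotient C) (g : (L ≃ₐ[F] L) ⧸ C) y : K) : L) = g (y : L) := by
    intro g y
    rw [IsGalois.normalAutEquivQuotient_apply]
    exact AlgEquiv.restrictNormalHom_apply K g y
  refine hN β hP hrec hβ F K ι'.toRatAlgHom hf ?_ ?_ hn
  · intro σ τ
    obtain ⟨a, rfl⟩ := (IsGalois.normalAutEquivQuotient C).surjective σ
    obtain ⟨b, rfl⟩ := (IsGalois.normalAutEquivQuotient C).surjective τ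
    obtain ⟨g, rfl⟩ := QuotientGroup.mk_surjective a
    obtain ⟨h, rfl⟩ := QuotientGroup.mk_surjective b
    rw [← map_pow, ← map_mul, ← map_mul]
    congr 1
    rw [← QuotientGroup.mk_pow, ← QuotientGroup.mk_mul, ← QuotientGroup.mk_mul, hcen]
  · intro z hz
    obtain ⟨a, rfl⟩ := (IsGalois.normalAutEquivQuotient C).surjective z
    obtain ⟨z, rfl⟩ := QuotientGroup.mk_surjective a
    have h1 : z ∈ C := by
      rw [hCmem]
      intro g
      have h2 := congrArg (fun y : K => (y : L)) (hz ((IsGalois.normalAutEquivQuotient C) g))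
      simp only [hval] at h2
      exact h2
    rw [(QuotientGroup.eq_one_iff z).2 h1, map_one]

/-- finitely many exceptions -/
theorem finalL (B : ℝ) (d f : ℕ) (hd : 0 < d) :
    {β : ℝ | IsPerron β ∧ IsReciprocal β ∧ β ≤ B ∧ ¬ (ParryPowers β).Finite ∧
      ∃ (F L : Type) (_ : Field F) (_ : NumberField F) (_ : Field L) (_ : NumberField L)
        (_ : Algebra F L) (_ : IsGalois F L), Module.finrank ℚ F ≤ f ∧
        (∀ σ τ : L ≃ₐ[F] L, σ ^ d * τ = τ * σ ^ d) ∧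
        ∃ x : L, aeval x (minpoly ℚ (β + β⁻¹)) = 0}.Finite := by
  obtain ⟨N, hN⟩ := thmL B d f hd
  refine (perron_finite B (2 * N)).subset ?_
  rintro β ⟨hP, hrec, hβ, hinf, F, L, _, _, _, _, _, _, hf, hcen, x, hx⟩
  refine ⟨hP, hβ, (deg_le hP hrec).trans (Nat.mul_le_mul_left 2 ?_)⟩
  by_contra hcon
  push Not at hcon
  have hrecint : IsIntegral ℤ β⁻¹ := ⟨minpoly ℤ β, minpoly.monic hP.2.1, by
    rw [← aeval_def]; exact hrec⟩
  have hint : IsIntegral ℚ (β + β⁻¹) := (hP.2.1.add hrecint).tower_top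
  let ι : TF β →ₐ[ℚ] L := (IntermediateField.algHomAdjoinIntegralEquiv ℚ hint).symm
    ⟨x, by rw [mem_aroots]; exact ⟨minpoly.ne_zero hint, hx⟩⟩
  exact hinf (hN β hP hrec hβ F L ι hf hcen hcon.le)

end Pool.Agent.J4H53.VH
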