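import Mathlib
import Pool.Agent.J4H53.VH.C

/-!
# The product criterion for a family of automorphisms; radicals and Frobenius
-/

set_option autoImplicit false

open Polynomial NumberField
open scoped Pointwise Nat

namespace Pool.Agent.J4H53.VH

open Pool.Agent.W738.SAL Pool.Agent.Q98.SG Pool.Agent.J4H53.VG

/-- the product criterion for a family -/
theorem prodCritI {β : ℝ} (hP : IsPerron β) (hrec : IsReciprocal β)
    (hinf : ¬ (ParryPowers β).Finite) {L : Type} [Field L] [NumberField L] (ι : TF β →ₐ[ℚ] L)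
    {p : ℕ} (hp : p.Prime) {i j : ℕ} {κ : Type*} (S : Finset κ) (τ : κ → (L ≃ₐ[ℚ] L)) (hij : j < i)
    (hdiv : (∏ σ ∈ S, ((TL ι hP hrec) ^ (p ^ (i - j)) - τ σ • (TL ι hP hrec))) ^ (p ^ j) ∈
      Ideal.span {(p : 𝓞 L)}) :
    (p : ℝ) ^ (Module.finrank ℚ (TF β)) ≤
      ((U β (p ^ i) + 2) * (U β (p ^ j) + 2) / 16 * 4 ^ (Module.finrank ℚ (TF β))) ^ S.card := by
  classical
  have : Fact p.Prime := ⟨hp⟩
  have hfd := tf_finite hP hrec
  have hone : ∀ z : ℂ, aeval z (minpoly ℤ β) = 0 → z ≠ (β : ℂ) → ‖z‖ ≤ 1 :=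
    fun z hz hne => one_of_inf hP hinf hz hne
  have hji : j ≤ i := hij.le
  set T : 𝓞 L := TL ι hP hrec with hT
  set t : L := ι (tt β) with ht
  set zz : κ → L := fun σ =>
    aeval t (dickson 1 (1 : ℤ) (p ^ i)) - aeval (τ σ t) (dickson 1 (1 : ℤ) (p ^ j)) with hzz
  set z' : κ → 𝓞 L := fun σ =>
    aeval T (dickson 1 (1 : ℤ) (p ^ i)) - aeval (τ σ • T) (dickson 1 (1 : ℤ) (p ^ j)) with hz'
  have hcoe : ∀ σ, algebraMap (𝓞 L) L (z' σ) = zz σ := by
    intro σ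
    rw [hz', hzz]
    simp only [map_sub]
    rw [← aeval_algebraMap_apply, ← aeval_algebraMap_apply]
    rfl
  have hdiv' : (∏ σ ∈ S, z' σ) ∈ Ideal.span {(p : 𝓞 L)} := by
    rw [← Ideal.Quotient.eq_zero_iff_mem] at hdiv ⊢
    rw [← hdiv, map_pow, map_prod, map_prod, ← Finset.prod_pow]
    refine Finset.prod_congr rfl fun σ _ => ?_
    rw [hz']
    simp only
    rw [← mk_sub_pow, map_sub, mk_dickson, mk_dickson, map_pow, ← pow_mul, ← pow_add,
      Nat.sub_add_cancel hji]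
  obtain ⟨y, hy⟩ := Ideal.mem_span_singleton.1 hdiv'
  have hy2 : ∏ σ ∈ S, zz σ = p * algebraMap (𝓞 L) L y := by
    have h1 := congrArg (algebraMap (𝓞 L) L) hy
    rw [map_prod, map_mul, map_natCast] at h1
    rw [← h1]
    exact Finset.prod_congr rfl fun σ _ => (hcoe σ).symm
  have hpi : 1 ≤ p ^ i := Nat.one_le_pow _ _ hp.pos
  have hpj : 1 ≤ p ^ j := Nat.one_le_pow _ _ hp.pos
  have hne : ∏ σ ∈ S, zz σ ≠ 0 := by
    rw [Finset.prod_ne_zero_iff]
    intro σ hσ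
    exact z_ne_zeroL ι hP.1 hP.2.1 hrec hone (τ σ) (Nat.pow_lt_pow_right hp.one_lt hij)
  have hlow := pow_le_prod (p := p) y.2 hy2 hne
  set n := Module.finrank ℚ (TF β) with hn
  set cst := (U β (p ^ i) + 2) * (U β (p ^ j) + 2) / 16 * 4 ^ n with hcst
  have hcst0 : 0 ≤ cst := by
    have h0 : 0 < β := lt_trans one_pos hP.1
    have h1 := U_two_le h0 (p ^ i)
    have h2 := U_two_le h0 (p ^ j)
    positivity
  have h1 : ∏ ψ : L →ₐ[ℚ] ℂ, ‖ψ (∏ σ ∈ S, zz σ)‖ =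
      ∏ σ ∈ S, ∏ ψ : L →ₐ[ℚ] ℂ, ‖ψ (zz σ)‖ := by
    rw [Finset.prod_comm]
    refine Finset.prod_congr rfl fun ψ _ => ?_
    rw [map_prod, norm_prod]
  have h2 : ∏ σ ∈ S, ∏ ψ : L →ₐ[ℚ] ℂ, ‖ψ (zz σ)‖ ≤ ∏ _σ ∈ S, cst ^ (rr ι) := by
    refine Finset.prod_le_prod (fun σ _ => Finset.prod_nonneg fun ψ _ => norm_nonneg _) ?_
    intro σ _
    exact prod_boundL ι hP.1 hP.2.1 hrec hone (τ σ) hpi hpj
  rw [Finset.prod_const] at h2
  rw [h1] at hlow
  have h3 := hlow.trans h2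
  have e1 : (cst ^ (rr ι)) ^ S.card = (cst ^ S.card) ^ (rr ι) := by
    rw [← pow_mul, ← pow_mul, mul_comm]
  rw [e1, ← fib ι, mul_comm (rr ι), pow_mul] at h3
  have hr0 : rr ι ≠ 0 := by
    intro h0
    have h := fib ι
    have h4 : 0 < Module.finrank ℚ L := Module.finrank_pos
    rw [h0, zero_mul] at h
    omega
  exact (pow_le_pow_iff_left₀ (by positivity) (by positivity) hr0).1 h3

/-- evaluation of the twisted polynomial modulo a prime -/
theorem twisted_mem {A R : Type*} [CommRing A] [CommRing R] [Algebra A R] {G : Type*} [Group G]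
    [MulSemiringAction G A] {p m : ℕ} (hp : p.Prime) {I : Ideal R} (hI : (p : R) ∈ I) {σ : G}
    (hσ : ∀ z : A, algebraMap A R (z ^ (p ^ m) - σ • z) ∈ I) (P : A[X]) {x : R}
    (hx : aeval x P = 0) :
    aeval (x ^ (p ^ m)) (P.map (MulSemiringAction.toRingHom G A σ)) ∈ I := by
  classical
  by_cases htop : I = ⊤
  · rw [htop]; exact Submodule.mem_top
  have hnt : Nontrivial (R ⧸ I) := Ideal.Quotient.nontrivial_iff.2 htop
  have : Fact p.Prime := ⟨hp⟩
  have hch : CharP (R ⧸ I) p := by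
    apply (CharP.charP_iff_prime_eq_zero hp).2
    rw [← map_natCast (Ideal.Quotient.mk I), Ideal.Quotient.eq_zero_iff_mem]
    exact hI
  rw [← Ideal.Quotient.eq_zero_iff_mem]
  set π := Ideal.Quotient.mk I with hπ
  set ψ : A →+* R ⧸ I := π.comp (algebraMap A R) with hψ
  have h1 : ψ.comp (MulSemiringAction.toRingHom G A σ) = (iterateFrobenius (R ⧸ I) p m).comp ψ := by
    ext z
    change π (algebraMap A R (σ • z)) = iterateFrobenius (R ⧸ I) p m (π (algebraMap A R z))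
    rw [iterateFrobenius_def, ← map_pow, ← map_pow]
    symm
    rw [hπ, Ideal.Quotient.eq, ← map_sub]
    exact hσ z
  rw [aeval_def, hom_eval₂, eval₂_map, ← hψ, h1, map_pow]
  have h2 : π x ^ (p ^ m) = iterateFrobenius (R ⧸ I) p m (π x) := by rw [iterateFrobenius_def]
  rw [h2, ← hom_eval₂]
  have h3 : eval₂ ψ (π x) P = 0 := by
    rw [hψ, ← hom_eval₂, ← aeval_def, hx, map_zero]
  rw [h3, map_zero]

end Pool.Agent.J4H53.VH
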