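import Mathlib
import Pool.Agent.J4H53.VH.I

/-!
# Ramification in an extension of bounded degree, and the radical criterion
-/

set_option autoImplicit false

open Polynomial NumberField
open scoped Pointwise Nat

namespace Pool.Agent.J4H53.VH

open Pool.Agent.W738.SAL Pool.Agent.Q98.SG Pool.Agent.J4H53.VG

section

variable {L M : Type} [Field L] [NumberField L] [Field M] [NumberField M] [Algebra L M] {p : ℕ}

lemma ram_ext (hp : p.Prime) {q : Ideal (𝓞 M)} (hq : q ∈ primesAbove M p) :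
    q.ramificationIdx ℤ ≤ (q.under (𝓞 L)).ramificationIdx ℤ * Module.finrank L M := by
  classical
  have hq1 := hq.1
  have hu := under_above (F := L) hq
  have hu1 := hu.1
  have h0 : q.under (𝓞 L) ≠ ⊥ := ne_bot_of hp hu
  have hmx : (q.under (𝓞 L)).IsMaximal := hu1.isMaximal h0
  have h1 : q.ramificationIdx ℤ = (q.under (𝓞 L)).ramificationIdx ℤ * q.ramificationIdx (𝓞 L) :=
    Ideal.ramificationIdx_tower (R := ℤ) (q.under (𝓞 L)) q
  rw [h1]
  apply Nat.mul_le_mul_left
  have hfin : ((q.under (𝓞 L)).primesOver (𝓞 M)).Finite := by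
    refine (primesAbove_finite M hp).subset ?_
    rintro P ⟨hP1, hP2⟩
    refine ⟨hP1, ?_⟩
    have h2 : (p : 𝓞 L) ∈ P.under (𝓞 L) := by
      rw [← hP2.over]; exact hu.2
    rw [Ideal.under_def, Ideal.mem_comap] at h2
    simpa using h2
  have := hfin.fintype
  have h2 := Ideal.sum_ramification_inertia_eq_finrank (q.under (𝓞 L)) (𝓞 M)
  have h3 : Module.finrank (𝓞 L) (𝓞 M) = Module.finrank L M :=
    (IsFractionRing.finrank_eq (𝓞 L) L (𝓞 M) M).symm
  rw [← h3, ← h2]
  have hov : q.LiesOver (q.under (𝓞 L)) := ⟨rfl⟩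
  have h4 := Finset.single_le_sum (f := fun r : (q.under (𝓞 L)).primesOver (𝓞 M) =>
    r.1.ramificationIdx (𝓞 L) * r.1.inertiaDeg (𝓞 L)) (fun _ _ => Nat.zero_le _)
    (Finset.mem_univ (⟨q, hq1, hov⟩ : (q.under (𝓞 L)).primesOver (𝓞 M)))
  refine le_trans ?_ h4
  exact Nat.le_mul_of_pos_right _ (q.inertiaDeg_pos (𝓞 L))

end

end Pool.Agent.J4H53.VH
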