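import Mathlib
import Pool.Agent.J4H53.VH.J

/-!
# An extension of bounded degree of a Galois extension
-/

set_option autoImplicit false

open Polynomial NumberField
open scoped Pointwise Nat

namespace Pool.Agent.J4H53.VH

open Pool.Agent.W738.SAL Pool.Agent.Q98.SG Pool.Agent.J4H53.VG

/-- the size estimate -/
theorem size_le {β : ℝ} (h1β : 1 < β) {p m k c f e n A : ℕ} (hp : p.Prime) (hf0 : 0 < f)
    (hc : c ≤ f) (hpf : 16 ^ f ≤ p) (hk2 : p ^ k ≤ p * e)
    (hA : β ^ (2 * p ^ (m + 1)) ≤ 4 ^ A)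
    (hcrit : (p : ℝ) ^ n ≤
      ((U β (p ^ (m + k)) + 2) * (U β (p ^ k) + 2) / 16 * 4 ^ n) ^ c) : n ≤ A * e := by
  have hM1 : p ^ (m + k) ≤ p ^ (m + 1) * e := by
    calc p ^ (m + k) = p ^ m * p ^ k := pow_add _ _ _
      _ ≤ p ^ m * (p * e) := Nat.mul_le_mul_left _ hk2
      _ = p ^ (m + 1) * e := by rw [pow_succ]; ring
  have hM2 : p ^ k ≤ p ^ (m + 1) * e :=
    (Nat.pow_le_pow_right hp.pos (by omega)).trans hM1
  have hcost := cost_le h1β hM1 hM2 n
  have hge1 : (1 : ℝ) ≤ (U β (p ^ (m + k)) + 2) * (U β (p ^ k) + 2) / 16 * 4 ^ n := by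
    have h0 : 0 < β := by linarith
    have h1 := U_two_le h0 (p ^ (m + k))
    have h2 := U_two_le h0 (p ^ k)
    have h3 : (1:ℝ) ≤ 4 ^ n := one_le_pow₀ (by norm_num)
    have h4 : (1:ℝ) ≤ (U β (p ^ (m + k)) + 2) * (U β (p ^ k) + 2) / 16 := by nlinarith
    exact one_le_mul_of_one_le_of_one_le h4 h3
  have h3 : β ^ (2 * (p ^ (m + 1) * e)) = (β ^ (2 * p ^ (m + 1))) ^ e := by
    rw [← pow_mul, mul_assoc]
  have h4 : (β ^ (2 * p ^ (m + 1))) ^ e ≤ (4 ^ A) ^ e :=
    pow_le_pow_left₀ (by positivity) hA e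
  have h5 : ((4:ℝ) ^ n * 4 ^ n) ^ f ≤ (4 ^ (A * e) * 4 ^ n) ^ f := by
    have h6 : ((4:ℝ) ^ n * 4 ^ n) ^ f = ((16:ℝ) ^ f) ^ n := by
      rw [← mul_pow, ← pow_mul, ← pow_mul, mul_comm n f]; norm_num
    have h7 : ((16:ℝ) ^ f) ^ n ≤ (p : ℝ) ^ n :=
      pow_le_pow_left₀ (by positivity) (by exact_mod_cast hpf) n
    have h8 : ((U β (p ^ (m + k)) + 2) * (U β (p ^ k) + 2) / 16 * 4 ^ n) ^ c ≤
        ((U β (p ^ (m + k)) + 2) * (U β (p ^ k) + 2) / 16 * 4 ^ n) ^ f :=
      pow_le_pow_right₀ hge1 hc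
    have h9 : ((U β (p ^ (m + k)) + 2) * (U β (p ^ k) + 2) / 16 * 4 ^ n) ^ f ≤
        (β ^ (2 * (p ^ (m + 1) * e)) * 4 ^ n) ^ f :=
      pow_le_pow_left₀ (by linarith) hcost f
    have h10 : (β ^ (2 * (p ^ (m + 1) * e)) * 4 ^ n) ^ f ≤ (4 ^ (A * e) * 4 ^ n) ^ f := by
      apply pow_le_pow_left₀ (by positivity)
      rw [h3, pow_mul (4:ℝ) A e]
      exact mul_le_mul_of_nonneg_right h4 (by positivity)
    rw [h6]
    exact h7.trans (hcrit.trans (h8.trans (h9.trans h10)))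
  have h6 : (4:ℝ) ^ n * 4 ^ n ≤ 4 ^ (A * e) * 4 ^ n :=
    (pow_le_pow_iff_left₀ (by positivity) (by positivity) hf0.ne').1 h5
  have h8 : (4:ℝ) ^ n ≤ 4 ^ (A * e) := le_of_mul_le_mul_right h6 (by positivity)
  exact (pow_le_pow_iff_right₀ (by norm_num : (1:ℝ) < 4)).1 h8

/-- the minimal polynomial as a product over automorphisms -/
theorem minpoly_prod {L N : Type} [Field L] [NumberField L] [Field N] [NumberField N]
    [Algebra L N] [IsGalois L N] (x : N) :
    ∃ (J : Finset N) (g : N → (N ≃ₐ[L] N)), J.card ≤ (minpoly L x).natDegree ∧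
      (minpoly L x).map (algebraMap L N) = ∏ r ∈ J, (X - C (g r x)) := by
  classical
  have hint : IsIntegral L x := Algebra.IsIntegral.isIntegral x
  have hsp : ((minpoly L x).map (algebraMap L N)).Splits := Normal.splits inferInstance x
  have hsep : (minpoly L x).Separable := Algebra.IsSeparable.isSeparable L x
  have hnd : ((minpoly L x).map (algebraMap L N)).roots.Nodup :=
    nodup_roots (hsep.map)
  have hg : ∀ r ∈ ((minpoly L x).map (algebraMap L N)).roots.toFinset, ∃ g : N ≃ₐ[L] N, g x = r := by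
    intro r hr
    rw [Multiset.mem_toFinset, mem_roots_map (minpoly.ne_zero hint)] at hr
    exact minpoly.exists_algEquiv_of_root' (Algebra.IsAlgebraic.isAlgebraic x)
      (by rw [aeval_def]; exact hr)
  choose! g hg using hg
  refine ⟨((minpoly L x).map (algebraMap L N)).roots.toFinset, g, ?_, ?_⟩
  · refine (Multiset.toFinset_card_le _).trans ?_
    refine (card_roots' _).trans ?_
    rw [natDegree_map]
  · have hmon : ((minpoly L x).map (algebraMap L N)).Monic := (minpoly.monic hint).map _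
    have h1 := hsp.eq_prod_roots_of_monic hmon
    have h2 : (((minpoly L x).map (algebraMap L N)).roots.map fun a => X - C a).prod =
        ∏ r ∈ ((minpoly L x).map (algebraMap L N)).roots.toFinset, (X - C r) := by
      rw [Finset.prod, Multiset.toFinset_val, hnd.dedup]
    exact (h1.trans h2).trans (Finset.prod_congr rfl fun r hr => by rw [hg r hr])

end Pool.Agent.J4H53.VH
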