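import Mathlib
import Pool.Agent.J4H53.VH.K

/-!
# Large inertia groups for an extension of bounded degree of a Galois extension
-/

set_option autoImplicit false

open Polynomial NumberField
open scoped Pointwise Nat

namespace Pool.Agent.J4H53.VH

open Pool.Agent.W738.SAL Pool.Agent.Q98.SG Pool.Agent.J4H53.VG

section

variable {F L M N : Type} [Field F] [NumberField F] [Field L] [NumberField L] [Field M]
  [NumberField M] [Field N] [NumberField N] [Algebra F L] [Algebra L M] [Algebra M N]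
  [Algebra L N] [Algebra F N] [IsScalarTower F L N] [IsScalarTower L M N] [IsGalois F L]
  [IsGalois F N]

/-- the embedding in `N` -/
noncomputable def ext {β : ℝ} (N : Type) [Field N] [NumberField N] [Algebra M N]
    (ι : TF β →ₐ[ℚ] M) : TF β →ₐ[ℚ] N :=
  ((algebraMap M N).toRatAlgHom).comp ι

/-- the product of the twisted polynomials at a power of the trace -/
noncomputable def PiM {β : ℝ} (ι : TF β →ₐ[ℚ] M) (hP : IsPerron β) (hrec : IsReciprocal β)
    (S : Finset (L ≃ₐ[F] L)) (q : ℕ) : 𝓞 M :=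
  ∏ σ ∈ S, aeval ((TL ι hP hrec) ^ q)
    ((minpoly (𝓞 L) (TL ι hP hrec)).map (MulSemiringAction.toRingHom (L ≃ₐ[F] L) (𝓞 L) σ))

omit [IsGalois F L] in
/-- the factorisation in `N` -/
theorem PiM_eq {β : ℝ} (ι : TF β →ₐ[ℚ] M) (hP : IsPerron β) (hrec : IsReciprocal β)
    [Normal F L] (S : Finset (L ≃ₐ[F] L)) (q : ℕ) :
    ∃ (J : Finset N) (τ : (L ≃ₐ[F] L) × N → (N ≃ₐ[ℚ] N)), J.card ≤ Module.finrank L M ∧
      ∏ s ∈ S ×ˢ J, ((TL (ext N ι) hP hrec) ^ q - τ s • (TL (ext N ι) hP hrec)) =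
        algebraMap (𝓞 M) (𝓞 N) (PiM ι hP hrec S q) := by
  classical
  have hLN : IsGalois L N := IsGalois.tower_top_of_isGalois F L N
  have hFD : FiniteDimensional L M := FiniteDimensional.right ℚ L M
  set T : 𝓞 M := TL ι hP hrec with hT
  set x : M := ι (tt β) with hx
  set y : N := algebraMap M N x with hy
  have hyx : minpoly L y = minpoly L x := minpoly.algebraMap_eq (algebraMap M N).injective x
  obtain ⟨J, g, hJ, hprod⟩ := minpoly_prod (L := L) y
  have hTx : algebraMap (𝓞 M) M T = x := rfl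
  have hmin : minpoly L x = (minpoly (𝓞 L) T).map (algebraMap (𝓞 L) L) := by
    rw [← hTx]
    exact minpoly.isIntegrallyClosed_eq_field_fractions L M (Algebra.IsIntegral.isIntegral T)
  refine ⟨J, fun s => AlgEquiv.ofRingEquiv
    (f := ((g s.2).toRingEquiv.trans (s.1.liftNormal N).toRingEquiv)) (fun q => by simp),
    hJ.trans (by rw [hyx]; exact minpoly.natDegree_le _), ?_⟩
  apply FaithfulSMul.algebraMap_injective (𝓞 N) N
  rw [Finset.prod_product, map_prod, PiM, map_prod, map_prod]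
  refine Finset.prod_congr rfl fun σ _ => ?_
  rw [map_prod]
  -- the left side
  have hl : ∀ j : N, algebraMap (𝓞 N) N ((TL (ext N ι) hP hrec) ^ q -
      (AlgEquiv.ofRingEquiv (f := ((g (σ, j).2).toRingEquiv.trans
        ((σ, j).1.liftNormal N).toRingEquiv)) (fun q => by simp) : N ≃ₐ[ℚ] N) •
        (TL (ext N ι) hP hrec)) = y ^ q - (σ.liftNormal N) (g j y) := by
    intro j
    rw [map_sub, map_pow]
    rfl
  rw [Finset.prod_congr rfl fun j _ => hl j]
  have h1 := congrArg (fun P : N[X] => eval (y ^ q) (P.map (σ.liftNormal N : N →+* N))) hprod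
  simp only [Polynomial.map_prod, Polynomial.map_sub, map_X, map_C, eval_prod, eval_sub, eval_X,
    eval_C] at h1
  have h2 : ∏ j ∈ J, (y ^ q - (σ.liftNormal N) (g j y)) =
      ∏ j ∈ J, (y ^ q - ((σ.liftNormal N : N ≃ₐ[F] N) : N →+* N) (g j y)) := rfl
  rw [h2, ← h1, hyx, hmin, Polynomial.map_map, Polynomial.map_map]
  -- the right side
  rw [aeval_def, eval₂_eq_eval_map, Polynomial.map_map]
  have h3 : algebraMap (𝓞 N) N (algebraMap (𝓞 M) (𝓞 N) (eval (T ^ q)
      ((minpoly (𝓞 L) T).map ((algebraMap (𝓞 L) (𝓞 M)).comp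
        (MulSemiringAction.toRingHom (L ≃ₐ[F] L) (𝓞 L) σ))))) =
      eval (y ^ q) (((minpoly (𝓞 L) T).map ((algebraMap (𝓞 L) (𝓞 M)).comp
        (MulSemiringAction.toRingHom (L ≃ₐ[F] L) (𝓞 L) σ))).map
          ((algebraMap (𝓞 N) N).comp (algebraMap (𝓞 M) (𝓞 N)))) := by
    have h4 : y ^ q = ((algebraMap (𝓞 N) N).comp (algebraMap (𝓞 M) (𝓞 N))) (T ^ q) := by
      rw [map_pow]
      rfl
    rw [h4, eval_map_apply]
    rfl
  rw [h3, Polynomial.map_map]
  congr 2
  ext z
  change (σ.liftNormal N) (algebraMap L N (z : L)) = algebraMap M N (algebraMap L M (σ (z : L)))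
  rw [AlgEquiv.liftNormal_commutes, IsScalarTower.algebraMap_apply L M N]

end

end Pool.Agent.J4H53.VH
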