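import Mathlib
import Pool.Agent.J4H53.VH.N

/-!
# Large inertia groups, final form
-/

set_option autoImplicit false

open Polynomial NumberField
open scoped Pointwise Nat

namespace Pool.Agent.J4H53.VH

open Pool.Agent.W738.SAL Pool.Agent.Q98.SG Pool.Agent.J4H53.VG

theorem inert_largeM {β : ℝ} (hP : IsPerron β) (hrec : IsReciprocal β)
    (hinf : ¬ (ParryPowers β).Finite) {F L M : Type} [Field F] [NumberField F] [Field L]
    [NumberField L] [Field M] [NumberField M] [Algebra F L] [Algebra L M]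
    [IsGalois F L] (ι : TF β →ₐ[ℚ] M)
    {p d f D A : ℕ} (hp : p.Prime) (hd : 0 < d) (hf0 : 0 < f)
    (hf : Module.finrank ℚ F ≤ f) (hD : Module.finrank L M ≤ D) (hpf : 16 ^ (f * D) ≤ p)
    (hcen : ∀ σ τ : L ≃ₐ[F] L, σ ^ d * τ = τ * σ ^ d)
    (hA : β ^ (2 * p ^ (f ! * d + 1)) ≤ 4 ^ A) :
    ∃ Q ∈ primesAbove L p,
      Module.finrank ℚ (TF β) ≤ A * (D * f) * Nat.card (Q.inertia (L ≃ₐ[F] L)) := by
  let e : M →ₐ[ℚ] ℂ := IsAlgClosed.lift
  let _ : Algebra M ℂ := e.toRingHom.toAlgebra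
  let N := IntermediateField.normalClosure ℚ M ℂ
  have hfd : FiniteDimensional ℚ N := inferInstance
  have hN : NumberField N := ⟨⟩
  have hnorm : Normal ℚ N := (Algebra.IsAlgebraic.isNormalClosure_normalClosure (F := ℚ) (K := M)
    (L := ℂ) (fun x => IsAlgClosed.splits _)).normal
  have hgal : IsGalois ℚ N := ⟨⟩
  let _ : Algebra M N := inferInstance
  let _ : Algebra L N := ((algebraMap M N).comp (algebraMap L M)).toAlgebra
  let _ : Algebra F N := ((algebraMap L N).comp (algebraMap F L)).toAlgebra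
  have h1 : IsScalarTower F L N := IsScalarTower.of_algebraMap_eq' rfl
  have h2 : IsScalarTower L M N := IsScalarTower.of_algebraMap_eq' rfl
  have h3 : IsGalois F N := IsGalois.tower_top_of_isGalois ℚ F N
  exact inert_largeN hP hrec hinf N ι hp hd hf0 hf hD hpf hcen hA

end Pool.Agent.J4H53.VH
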