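import Mathlib
import Pool.Agent.J4H53.VH.O

/-!
# Factors of the minimal polynomial of the trace
-/

set_option autoImplicit false

open Polynomial NumberField
open scoped Pointwise Nat

namespace Pool.Agent.J4H53.VH

open Pool.Agent.W738.SAL Pool.Agent.Q98.SG Pool.Agent.J4H53.VG

/-- a monic irreducible factor of degree at most `D` of the minimal polynomial of the trace -/
def Fac (β : ℝ) (L : Type) [Field L] [NumberField L] (D : ℕ) (P : L[X]) : Prop :=
  P.Monic ∧ Irreducible P ∧ P.natDegree ≤ D ∧ P ∣ (minpoly ℚ (tt β)).map (algebraMap ℚ L)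

theorem inert_largeP {β : ℝ} (hP : IsPerron β) (hrec : IsReciprocal β)
    (hinf : ¬ (ParryPowers β).Finite) {F L : Type} [Field F] [NumberField F] [Field L]
    [NumberField L] [Algebra F L] [IsGalois F L] {D : ℕ} {P : L[X]} (hFac : Fac β L D P)
    {p d f A : ℕ} (hp : p.Prime) (hd : 0 < d) (hf0 : 0 < f)
    (hf : Module.finrank ℚ F ≤ f) (hpf : 16 ^ (f * D) ≤ p)
    (hcen : ∀ σ τ : L ≃ₐ[F] L, σ ^ d * τ = τ * σ ^ d)
    (hA : β ^ (2 * p ^ (f ! * d + 1)) ≤ 4 ^ A) :
    ∃ Q ∈ primesAbove L p,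
      Module.finrank ℚ (TF β) ≤ A * (D * f) * Nat.card (Q.inertia (L ≃ₐ[F] L)) := by
  obtain ⟨hmon, hirr, hdeg, hdvd⟩ := hFac
  have : Fact (Irreducible P) := ⟨hirr⟩
  have hne : P ≠ 0 := hirr.ne_zero
  have hfinL : FiniteDimensional L (AdjoinRoot P) := (AdjoinRoot.powerBasis hne).finite
  have hch : CharZero (AdjoinRoot P) :=
    charZero_of_injective_algebraMap (algebraMap L (AdjoinRoot P)).injective
  have hfinQ : FiniteDimensional ℚ (AdjoinRoot P) := FiniteDimensional.trans ℚ L (AdjoinRoot P)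
  have hnf : NumberField (AdjoinRoot P) := ⟨⟩
  have hD : Module.finrank L (AdjoinRoot P) ≤ D := by
    rw [(AdjoinRoot.powerBasis hne).finrank, AdjoinRoot.powerBasis_dim]
    exact hdeg
  have hint : IsIntegral ℚ (β + β⁻¹) := by
    have hrecint : IsIntegral ℤ β⁻¹ := ⟨minpoly ℤ β, minpoly.monic hP.2.1, by
      rw [← aeval_def]; exact hrec⟩
    exact (hP.2.1.add hrecint).tower_top
  have hmin : minpoly ℚ (tt β) = minpoly ℚ (β + β⁻¹) :=
    (minpoly.algebraMap_eq (algebraMap (TF β) ℝ).injective (tt β)).symm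
  have hroot : aeval (AdjoinRoot.root P) (minpoly ℚ (β + β⁻¹)) = 0 := by
    rw [← hmin]
    obtain ⟨R, hR⟩ := hdvd
    have h1 : aeval (AdjoinRoot.root P) ((minpoly ℚ (tt β)).map (algebraMap ℚ L)) = 0 := by
      rw [hR, map_mul, AdjoinRoot.aeval_eq, AdjoinRoot.mk_self, zero_mul]
    rwa [aeval_map_algebraMap] at h1
  let ι : TF β →ₐ[ℚ] AdjoinRoot P := (IntermediateField.algHomAdjoinIntegralEquiv ℚ hint).symm
    ⟨AdjoinRoot.root P, by rw [mem_aroots]; exact ⟨minpoly.ne_zero hint, hroot⟩⟩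
  exact inert_largeM hP hrec hinf ι hp hd hf0 hf hD hpf hcen hA

section

variable {β : ℝ} {F L : Type} [Field F] [NumberField F] [Field L] [NumberField L] [Algebra F L]
  {D : ℕ} {P : L[X]}

/-- the conjugates of a factor are factors -/
theorem Fac.smul (h : Fac β L D P) (g : L ≃ₐ[F] L) : Fac β L D (g • P) := by
  obtain ⟨hmon, hirr, hdeg, hdvd⟩ := h
  have hmap : g • P = P.map (MulSemiringAction.toRingHom (L ≃ₐ[F] L) L g) := by
    rw [← Polynomial.smul_eq_map]
  refine ⟨?_, ?_, ?_, ?_⟩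
  · rw [hmap]; exact hmon.map _
  · exact (MulEquiv.irreducible_iff
      (MulSemiringAction.toRingEquiv (L ≃ₐ[F] L) L[X] g)).2 hirr
  · rw [hmap, natDegree_map]; exact hdeg
  · have h1 : (minpoly ℚ (tt β)).map (algebraMap ℚ L) =
        g • ((minpoly ℚ (tt β)).map (algebraMap ℚ L)) := by
      have h2 : g • ((minpoly ℚ (tt β)).map (algebraMap ℚ L)) =
          ((minpoly ℚ (tt β)).map (algebraMap ℚ L)).map
            (MulSemiringAction.toRingHom (L ≃ₐ[F] L) L g) := by
        rw [← Polynomial.smul_eq_map]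
      rw [h2, Polynomial.map_map]
      congr 1
      exact RingHom.ext_rat _ _
    rw [h1]
    obtain ⟨R, hR⟩ := hdvd
    rw [hR, smul_mul']
    exact Dvd.intro _ rfl

/-- the stabilizer of a factor has index at most `n` -/
theorem Fac.index_le [FiniteDimensional ℚ (TF β)] (h : Fac β L D P) :
    (MulAction.stabilizer (L ≃ₐ[F] L) P).index ≤ Module.finrank ℚ (TF β) := by
  classical
  rw [MulAction.index_stabilizer]
  have hint : IsIntegral ℚ (tt β) := Algebra.IsIntegral.isIntegral _
  have hne : minpoly ℚ (tt β) ≠ 0 := minpoly.ne_zero hint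
  have h2 : MulAction.orbit (L ≃ₐ[F] L) P ⊆
      (fun r : AlgebraicClosure L => minpoly L r) ''
        ((minpoly ℚ (tt β)).rootSet (AlgebraicClosure L)) := by
    rintro _ ⟨g, rfl⟩
    obtain ⟨hmon, hirr, hdeg, hdvd⟩ := h.smul g
    obtain ⟨r, hr⟩ := IsAlgClosed.exists_aeval_eq_zero (AlgebraicClosure L) (g • P)
      (degree_pos_of_irreducible hirr).ne'
    refine ⟨r, ?_, (minpoly.eq_of_irreducible_of_monic hirr hr hmon).symm⟩
    rw [mem_rootSet]
    refine ⟨hne, ?_⟩
    obtain ⟨R, hR⟩ := hdvd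
    have h1 : aeval r ((minpoly ℚ (tt β)).map (algebraMap ℚ L)) = 0 := by
      rw [hR, map_mul, hr, zero_mul]
    rwa [aeval_map_algebraMap] at h1
  have hfin : ((fun r : AlgebraicClosure L => minpoly L r) ''
        ((minpoly ℚ (tt β)).rootSet (AlgebraicClosure L))).Finite := (rootSet_finite _ _).image _
  refine (Set.ncard_le_ncard h2 hfin).trans ?_
  refine (Set.ncard_image_le (rootSet_finite _ _)).trans ?_
  rw [rootSet_def, Set.ncard_coe_finset]
  refine (Multiset.toFinset_card_le _).trans ?_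
  refine (card_roots' _).trans ?_
  rw [natDegree_map]
  exact minpoly.natDegree_le _

/-- descent of a factor to a subfield containing its coefficients -/
theorem Fac.descend {K : Type} [Field K] [NumberField K] [Algebra K L] (h : Fac β L D P)
    (hc : ∀ i, P.coeff i ∈ Set.range (algebraMap K L)) :
    ∃ R : K[X], R.map (algebraMap K L) = P ∧ Fac β K D R := by
  obtain ⟨hmon, hirr, hdeg, hdvd⟩ := h
  have h1 : P ∈ lifts (algebraMap K L) := by
    rw [lifts_iff_coeff_lifts]
    exact hc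
  obtain ⟨R, hR⟩ := (mem_lifts P).1 h1
  have hRm : R.Monic := by
    apply monic_of_injective (algebraMap K L).injective
    rw [hR]; exact hmon
  refine ⟨R, hR, hRm, ?_, ?_, ?_⟩
  · apply hRm.irreducible_of_irreducible_map (algebraMap K L)
    rw [hR]; exact hirr
  · rw [← natDegree_map (algebraMap K L), hR]; exact hdeg
  · rw [← map_dvd_map' (algebraMap K L), hR, Polynomial.map_map]
    have h2 : (algebraMap K L).comp (algebraMap ℚ K) = algebraMap ℚ L := RingHom.ext_rat _ _
    rw [h2]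
    exact hdvd

end

end Pool.Agent.J4H53.VH
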