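import Mathlib
import Pool.Agent.J4H53.VH.Q
import Pool.Agent.J4H53.VG.North

/-!
# Traces of bounded degree over a Galois extension: the theorem
-/

set_option autoImplicit false

open Polynomial NumberField
open scoped Pointwise Nat

namespace Pool.Agent.J4H53.VH

open Pool.Agent.W738.SAL Pool.Agent.Q98.SG Pool.Agent.J4H53.VG

/-- the abelian case -/
theorem thmAbP (B : ℝ) (f D : ℕ) : ∃ N : ℕ, ∀ β : ℝ, IsPerron β → IsReciprocal β → β ≤ B →
    ∀ (F L : Type) [Field F] [NumberField F] [Field L] [NumberField L] [Algebra F L]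
      [IsGalois F L] (P : L[X]), Fac β L D P →
      Module.finrank ℚ F ≤ f → Module.finrank F L ≤ Module.finrank ℚ (TF β) →
      (∀ σ τ : L ≃ₐ[F] L, σ * τ = τ * σ) →
      N ≤ Module.finrank ℚ (TF β) → (ParryPowers β).Finite := by
  obtain ⟨p, hpf, hp⟩ := Nat.exists_infinite_primes (16 ^ (f * D))
  obtain ⟨q, hqf, hq⟩ := Nat.exists_infinite_primes (p + 1)
  obtain ⟨A, hA⟩ := exists_A B (2 * p ^ (f ! * 1 + 1))
  obtain ⟨C, hC⟩ := exists_A B (2 * q ^ (f ! * 1 + 1))
  refine ⟨(A * (D * f) * p ^ (f !)) * (C * (D * f) * q ^ (f !)) + 1, ?_⟩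
  intro β hP hrec hβ F L _ _ _ _ _ _ P hFac hf hfin hcomm hn
  by_contra hinf
  have hfd : FiniteDimensional ℚ (TF β) := tf_finite hP hrec
  have h0 : 0 < β := lt_trans one_pos hP.1
  have hF0 : 0 < Module.finrank ℚ F := Module.finrank_pos
  have hf0 : 0 < f := hF0.trans_le hf
  have hcen : ∀ σ τ : L ≃ₐ[F] L, σ ^ 1 * τ = τ * σ ^ 1 := fun σ τ => by
    rw [pow_one]; exact hcomm σ τ
  have hqf' : 16 ^ (f * D) ≤ q := hpf.trans ((Nat.le_succ p).trans hqf)
  obtain ⟨Q, hQ, h1⟩ := inert_largeP hP hrec hinf hFac hp one_pos hf0 hf hpf hcen (hA β h0 hβ)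
  obtain ⟨R, hR, h2⟩ := inert_largeP hP hrec hinf hFac hq one_pos hf0 hf hqf' hcen (hC β h0 hβ)
  obtain ⟨W, hW, h3⟩ := ab_bound hp hf hcomm hQ
  obtain ⟨V, hV, h4⟩ := ab_bound hq hf hcomm hR
  have h5 := two_groups hp hq (by omega) hW hV
  have h6 : Nat.card (L ≃ₐ[F] L) = Module.finrank F L :=
    IsGalois.card_aut_eq_finrank F L
  set n := Module.finrank ℚ (TF β) with hn'
  have h8 : Nat.card (L ≃ₐ[F] L) ≤ n := by rw [h6]; exact hfin
  have hn0 : 0 < n := Module.finrank_pos
  have h9 : n ≤ (A * (D * f) * p ^ (f !)) * Nat.card W := by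
    calc n ≤ A * (D * f) * Nat.card (Q.inertia (L ≃ₐ[F] L)) := h1
      _ ≤ A * (D * f) * (p ^ (f !) * Nat.card W) := Nat.mul_le_mul_left _ h3
      _ = _ := by ring
  have h10 : n ≤ (C * (D * f) * q ^ (f !)) * Nat.card V := by
    calc n ≤ C * (D * f) * Nat.card (R.inertia (L ≃ₐ[F] L)) := h2
      _ ≤ C * (D * f) * (q ^ (f !) * Nat.card V) := Nat.mul_le_mul_left _ h4
      _ = _ := by ring
  have h11 : n * n ≤ ((A * (D * f) * p ^ (f !)) * (C * (D * f) * q ^ (f !))) * n := by
    calc n * n ≤ ((A * (D * f) * p ^ (f !)) * Nat.card W) *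
          ((C * (D * f) * q ^ (f !)) * Nat.card V) := Nat.mul_le_mul h9 h10
      _ = ((A * (D * f) * p ^ (f !)) * (C * (D * f) * q ^ (f !))) *
          (Nat.card W * Nat.card V) := by ring
      _ ≤ _ := Nat.mul_le_mul_left _ (h5.trans h8)
  have h12 := Nat.le_of_mul_le_mul_right h11 hn0
  omega

/-- the centre gives an abelian extension over which the trace has bounded degree -/
theorem descendP {β : ℝ} (hP : IsPerron β) (hrec : IsReciprocal β) {F L : Type} [Field F]
    [NumberField F] [Field L] [NumberField L] [Algebra F L] [IsGalois F L] {D : ℕ} {P : L[X]}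
    (hFac : Fac β L D P)
    (hgen : ∀ z : L ≃ₐ[F] L, (∀ g : L ≃ₐ[F] L, z • (g • P) = g • P) → z = 1)
    {f c : ℕ} (hf : Module.finrank ℚ F ≤ f)
    (hc : Module.finrank ℚ (TF β) ≤ c * Nat.card (Subgroup.center (L ≃ₐ[F] L))) :
    ∃ (E K : Type) (_ : Field E) (_ : NumberField E) (_ : Field K) (_ : NumberField K)
      (_ : Algebra E K) (_ : IsGalois E K) (R : K[X]), Fac β K D R ∧
      Module.finrank ℚ E ≤ f * c ∧ Module.finrank E K ≤ Module.finrank ℚ (TF β) ∧
      ∀ σ τ : K ≃ₐ[E] K, σ * τ = τ * σ := by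
  classical
  have hfd : FiniteDimensional ℚ (TF β) := tf_finite hP hrec
  set n := Module.finrank ℚ (TF β) with hn
  set Z := Subgroup.center (L ≃ₐ[F] L) with hZ
  set S := MulAction.stabilizer (L ≃ₐ[F] L) P with hS
  set M := S ⊔ Z with hM
  set E := IntermediateField.fixedField M with hE
  have hnE : NumberField E := NumberField.of_intermediateField E
  let e := IntermediateField.subgroupEquivAlgEquiv M
  have he : ∀ (m : M) (y : L), (e m) y = (m : L ≃ₐ[F] L) y := fun m y => rfl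
  have heP : ∀ (m : M) (R : L[X]), (e m) • R = (m : L ≃ₐ[F] L) • R := by
    intro m R
    ext i
    rw [coeff_smul, coeff_smul]
    exact he m _
  -- commutation with the centre
  have hcomm : ∀ (γ : L ≃ₐ[E] L) (z : L ≃ₐ[F] L), z ∈ Z → ∀ R : L[X],
      γ • (z • R) = z • (γ • R) := by
    intro γ z hz R
    obtain ⟨m, rfl⟩ := e.surjective γ
    rw [heP, heP, ← mul_smul, ← mul_smul]
    have h1 : (m : L ≃ₐ[F] L) * z = z * m := (Subgroup.mem_center_iff.1 hz) m
    rw [h1]
  have horb : ∀ γ : L ≃ₐ[E] L, ∃ z ∈ Z, γ • P = z • P := by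
    intro γ
    obtain ⟨m, rfl⟩ := e.surjective γ
    have hm : (m : L ≃ₐ[F] L) ∈ S ⊔ Z := m.2
    obtain ⟨s, hs, z, hz, hsz⟩ := Subgroup.mem_sup_of_normal_right.1 hm
    refine ⟨z, hz, ?_⟩
    rw [heP, ← hsz]
    have h1 : s * z = z * s := (Subgroup.mem_center_iff.1 hz) s
    have h2 : s • P = P := MulAction.mem_stabilizer_iff.1 hs
    rw [h1, mul_smul, h2]
  set T := MulAction.stabilizer (L ≃ₐ[E] L) P with hT
  have hTmem : ∀ γ : L ≃ₐ[E] L, γ ∈ T ↔ γ • P = P := fun γ => MulAction.mem_stabilizer_iff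
  have hTn : T.Normal := by
    refine ⟨fun h hh g => ?_⟩
    rw [hTmem] at hh ⊢
    obtain ⟨z, hz, hgz⟩ := horb g⁻¹
    rw [mul_smul, mul_smul, hgz, hcomm h z hz, hh, ← hgz, smul_inv_smul]
  set K := IntermediateField.fixedField T with hK
  have hnK : NumberField K := NumberField.of_intermediateField K
  obtain ⟨R, hR, hFacR⟩ := hFac.descend (K := K) (by
    intro i
    have h1 : P.coeff i ∈ K := by
      rw [hK, IntermediateField.mem_fixedField_iff]
      intro s hs
      have h2 := congrArg (fun Q : L[X] => Q.coeff i) ((hTmem s).1 hs)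
      simp only [coeff_smul] at h2
      exact h2
    exact ⟨⟨_, h1⟩, rfl⟩)
  refine ⟨E, K, inferInstance, hnE, inferInstance, hnK, inferInstance, inferInstance,
    R, hFacR, ?_, ?_, ?_⟩
  · -- the degree of `E`
    have hSi : S.index ≤ n := hFac.index_le (F := F)
    have h1 : Nat.card S * S.index = Nat.card (L ≃ₐ[F] L) := Subgroup.card_mul_index S
    have h2 : Nat.card (L ≃ₐ[F] L) = Module.finrank F L := IsGalois.card_aut_eq_finrank F L
    have h3 : Module.finrank ℚ F * Module.finrank F L = Module.finrank ℚ L :=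
      Module.finrank_mul_finrank ℚ F L
    have h4 : Module.finrank ℚ E * Module.finrank E L = Module.finrank ℚ L :=
      Module.finrank_mul_finrank ℚ E L
    have h5 : Module.finrank E L = Nat.card M := IntermediateField.finrank_fixedField_eq_card M
    have hdis : Disjoint S Z := by
      rw [Subgroup.disjoint_def]
      intro z hzS hzZ
      apply hgen
      intro g
      have h6 : z • P = P := MulAction.mem_stabilizer_iff.1 hzS
      have h7 : g * z = z * g := (Subgroup.mem_center_iff.1 hzZ) g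
      rw [← mul_smul, ← h7, mul_smul, h6]
    have h6 : Nat.card S * Nat.card Z ≤ Nat.card M := by
      rw [← Nat.card_prod]
      have hinj := Subgroup.mul_injective_of_disjoint hdis
      have hmem : ∀ g : S × Z, (g.1 : L ≃ₐ[F] L) * g.2 ∈ M := fun g =>
        M.mul_mem ((le_sup_left : S ≤ M) g.1.2) ((le_sup_right : Z ≤ M) g.2.2)
      exact Nat.card_le_card_of_injective (fun g : S × Z => (⟨_, hmem g⟩ : M))
        (fun a b hab => hinj (congrArg Subtype.val hab))
    have hS0 : 0 < Nat.card S := Nat.card_pos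
    have hZ0 : 0 < Nat.card Z := Nat.card_pos
    have h7 : (Module.finrank ℚ E * Nat.card Z) * Nat.card S ≤ (f * n) * Nat.card S := by
      calc (Module.finrank ℚ E * Nat.card Z) * Nat.card S =
            Module.finrank ℚ E * (Nat.card S * Nat.card Z) := by ring
        _ ≤ Module.finrank ℚ E * Nat.card M := Nat.mul_le_mul_left _ h6
        _ = Module.finrank ℚ F * (Nat.card S * S.index) := by rw [← h5, h4, ← h3, ← h2, h1]
        _ ≤ f * (Nat.card S * n) :=
            Nat.mul_le_mul hf (Nat.mul_le_mul_left _ hSi)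
        _ = _ := by ring
    have h8 := Nat.le_of_mul_le_mul_right h7 hS0
    have h9 : Module.finrank ℚ E * Nat.card Z ≤ (f * c) * Nat.card Z := by
      calc Module.finrank ℚ E * Nat.card Z ≤ f * n := h8
        _ ≤ f * (c * Nat.card Z) := Nat.mul_le_mul_left _ hc
        _ = _ := by ring
    exact Nat.le_of_mul_le_mul_right h9 hZ0
  · have h1 : Nat.card (K ≃ₐ[E] K) = Module.finrank E K := IsGalois.card_aut_eq_finrank E K
    rw [← h1, ← Nat.card_congr (IsGalois.normalAutEquivQuotient T).toEquiv]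
    exact hFac.index_le (F := E)
  · intro σ τ
    obtain ⟨a, rfl⟩ := (IsGalois.normalAutEquivQuotient T).surjective σ
    obtain ⟨b, rfl⟩ := (IsGalois.normalAutEquivQuotient T).surjective τ
    rw [← map_mul, ← map_mul]
    congr 1
    obtain ⟨g, rfl⟩ := QuotientGroup.mk_surjective a
    obtain ⟨h, rfl⟩ := QuotientGroup.mk_surjective b
    rw [← QuotientGroup.mk_mul, ← QuotientGroup.mk_mul, QuotientGroup.eq, hTmem]
    obtain ⟨z, hz, hgz⟩ := horb g
    obtain ⟨w, hw, hhw⟩ := horb h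
    have h1 : (h * g) • P = (g * h) • P := by
      rw [mul_smul, mul_smul, hgz, hhw, hcomm h z hz, hcomm g w hw, hgz, hhw, ← mul_smul,
        ← mul_smul]
      have h2 : z * w = w * z := (Subgroup.mem_center_iff.1 hw) z
      rw [h2]
    rw [mul_smul, h1, inv_smul_smul]

/-- the case that the conjugates of the factor generate the extension -/
theorem thmCenP (B : ℝ) (d f D : ℕ) (hd : 0 < d) : ∃ N : ℕ, ∀ β : ℝ, IsPerron β →
    IsReciprocal β → β ≤ B → ∀ (F L : Type) [Field F] [NumberField F] [Field L] [NumberField L]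
      [Algebra F L] [IsGalois F L] (P : L[X]), Fac β L D P →
      Module.finrank ℚ F ≤ f → (∀ σ τ : L ≃ₐ[F] L, σ ^ d * τ = τ * σ ^ d) →
      (∀ z : L ≃ₐ[F] L, (∀ g : L ≃ₐ[F] L, z • (g • P) = g • P) → z = 1) →
      N ≤ Module.finrank ℚ (TF β) → (ParryPowers β).Finite := by
  obtain ⟨p, hpf', hp⟩ := Nat.exists_infinite_primes (16 ^ (f * D) + (d + 1))
  have hpf : 16 ^ (f * D) ≤ p := (Nat.le_add_right _ _).trans hpf'
  have hdp : d < p := (Nat.le_add_left (d + 1) (16 ^ (f * D))).trans hpf'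
  obtain ⟨A, hA⟩ := exists_A B (2 * p ^ (f ! * d + 1))
  obtain ⟨N, hN⟩ := thmAbP B (f * (A * (D * f) * d)) D
  refine ⟨N, ?_⟩
  intro β hP hrec hβ F L _ _ _ _ _ _ P hFac hf hcen hgen hn
  by_contra hinf
  have hfd : FiniteDimensional ℚ (TF β) := tf_finite hP hrec
  have h0 : 0 < β := lt_trans one_pos hP.1
  have hF0 : 0 < Module.finrank ℚ F := Module.finrank_pos
  have hf0 : 0 < f := hF0.trans_le hf
  obtain ⟨Q, hQ, h1⟩ := inert_largeP hP hrec hinf hFac hp hd hf0 hf hpf hcen (hA β h0 hβ)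
  have hQ1 := hQ.1
  have hQ0 : Q ≠ ⊥ := ne_bot_of hp hQ
  have : Finite (𝓞 L ⧸ Q) := Ideal.finiteQuotientOfFreeOfNeBot Q hQ0
  have hfa : FaithfulSMul (L ≃ₐ[F] L) (𝓞 L) :=
    (inferInstance : IsGaloisGroup (L ≃ₐ[F] L) (𝓞 F) (𝓞 L)).faithful
  have h2 : Nat.card (Q.inertia (L ≃ₐ[F] L)) ≤
      d * Nat.card (Subgroup.center (L ≃ₐ[F] L)) :=
    inertia_card_le (G := L ≃ₐ[F] L) hQ0 hp hQ.2 hd hdp hcen
  have h3 : Module.finrank ℚ (TF β) ≤
      (A * (D * f) * d) * Nat.card (Subgroup.center (L ≃ₐ[F] L)) := by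
    calc Module.finrank ℚ (TF β) ≤ A * (D * f) * Nat.card (Q.inertia (L ≃ₐ[F] L)) := h1
      _ ≤ A * (D * f) * (d * Nat.card (Subgroup.center (L ≃ₐ[F] L))) := Nat.mul_le_mul_left _ h2
      _ = _ := by ring
  obtain ⟨E, K, _, _, _, _, _, _, R, hFacR, h4, h5, h6⟩ := descendP hP hrec hFac hgen hf h3
  exact hinf (hN β hP hrec hβ E K R hFacR h4 h5 h6 hn)

/-- the general case -/
theorem thmP (B : ℝ) (d f D : ℕ) (hd : 0 < d) : ∃ N : ℕ, ∀ β : ℝ, IsPerron β →
    IsReciprocal β → β ≤ B → ∀ (F L : Type) [Field F] [NumberField F] [Field L] [NumberField L]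
      [Algebra F L] [IsGalois F L] (P : L[X]), Fac β L D P →
      Module.finrank ℚ F ≤ f → (∀ σ τ : L ≃ₐ[F] L, σ ^ d * τ = τ * σ ^ d) →
      N ≤ Module.finrank ℚ (TF β) → (ParryPowers β).Finite := by
  classical
  obtain ⟨N, hN⟩ := thmCenP B d f D hd
  refine ⟨N, ?_⟩
  intro β hP hrec hβ F L _ _ _ _ _ _ P hFac hf hcen hn
  set C := (MulAction.toPermHom (L ≃ₐ[F] L) (MulAction.orbit (L ≃ₐ[F] L) P)).ker with hC
  have hCmem : ∀ z : L ≃ₐ[F] L, z ∈ C ↔ ∀ g : L ≃ₐ[F] L, z • (g • P) = g • P := by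
    intro z
    rw [hC, MonoidHom.mem_ker]
    constructor
    · intro h g
      have h1 := congrArg (fun s : Equiv.Perm (MulAction.orbit (L ≃ₐ[F] L) P) =>
        ((s ⟨g • P, ⟨g, rfl⟩⟩ : MulAction.orbit (L ≃ₐ[F] L) P) : L[X])) h
      exact h1
    · intro h
      apply Equiv.ext
      rintro ⟨y, g, rfl⟩
      exact Subtype.ext (h g)
  have hCn : C.Normal := MonoidHom.normal_ker _
  set K := IntermediateField.fixedField C with hK
  have hnK : NumberField K := NumberField.of_intermediateField K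
  obtain ⟨R, hR, hFacR⟩ := hFac.descend (K := K) (by
    intro i
    have h1 : P.coeff i ∈ K := by
      rw [hK, IntermediateField.mem_fixedField_iff]
      intro s hs
      have h3 := (hCmem s).1 hs 1
      rw [one_smul] at h3
      have h2 := congrArg (fun Q : L[X] => Q.coeff i) h3
      simp only [coeff_smul] at h2
      exact h2
    exact ⟨⟨_, h1⟩, rfl⟩)
  have hval : ∀ (g : L ≃ₐ[F] L) (y : K),
      (((IsGalois.normalAutEquivQuotient C) (g : (L ≃ₐ[F] L) ⧸ C) y : K) : L) = g (y : L) := by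
    intro g y
    rw [IsGalois.normalAutEquivQuotient_apply]
    exact AlgEquiv.restrictNormalHom_apply K g y
  have hvalP : ∀ (g : L ≃ₐ[F] L) (Q : K[X]),
      ((IsGalois.normalAutEquivQuotient C) (g : (L ≃ₐ[F] L) ⧸ C) • Q).map (algebraMap K L) =
        g • (Q.map (algebraMap K L)) := by
    intro g Q
    ext i
    rw [coeff_map, coeff_smul, coeff_smul, coeff_map]
    exact hval g _
  refine hN β hP hrec hβ F K R hFacR hf ?_ ?_ hn
  · intro σ τ
    obtain ⟨a, rfl⟩ := (IsGalois.normalAutEquivQuotient C).surjective σ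
    obtain ⟨b, rfl⟩ := (IsGalois.normalAutEquivQuotient C).surjective τ
    obtain ⟨g, rfl⟩ := QuotientGroup.mk_surjective a
    obtain ⟨h, rfl⟩ := QuotientGroup.mk_surjective b
    rw [← map_pow, ← map_mul, ← map_mul]
    congr 1
    rw [← QuotientGroup.mk_pow, ← QuotientGroup.mk_mul, ← QuotientGroup.mk_mul, hcen]
  · intro z hz
    obtain ⟨a, rfl⟩ := (IsGalois.normalAutEquivQuotient C).surjective z
    obtain ⟨z, rfl⟩ := QuotientGroup.mk_surjective a
    have h1 : z ∈ C := by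
      rw [hCmem]
      intro g
      have h2 := congrArg (fun Q : K[X] => Q.map (algebraMap K L))
        (hz ((IsGalois.normalAutEquivQuotient C) g))
      simp only [hvalP, hR] at h2
      exact h2
    rw [(QuotientGroup.eq_one_iff z).2 h1, map_one]

end Pool.Agent.J4H53.VH
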