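import Mathlib
import Pool.Agent.J4H53.VH.R

/-!
# Traces of bounded degree over a Galois extension: finitely many exceptions
-/

set_option autoImplicit false

open Polynomial NumberField
open scoped Pointwise Nat

namespace Pool.Agent.J4H53.VH

open Pool.Agent.W738.SAL Pool.Agent.Q98.SG Pool.Agent.J4H53.VG

/-- a factor of positive degree contains a monic irreducible factor -/
theorem exists_fac {β : ℝ} [FiniteDimensional ℚ (TF β)] {L : Type} [Field L] [NumberField L]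
    {D : ℕ} {P : L[X]} (h0 : 0 < P.natDegree) (hD : P.natDegree ≤ D)
    (hdvd : P ∣ (minpoly ℚ (tt β)).map (algebraMap ℚ L)) : ∃ Q : L[X], Fac β L D Q := by
  have hint : IsIntegral ℚ (tt β) := Algebra.IsIntegral.isIntegral _
  have hμ : (minpoly ℚ (tt β)).map (algebraMap ℚ L) ≠ 0 :=
    (Polynomial.map_ne_zero_iff (algebraMap ℚ L).injective).2 (minpoly.ne_zero hint)
  have hP0 : P ≠ 0 := by
    rintro rfl
    exact hμ (zero_dvd_iff.1 hdvd)
  have hnu : ¬ IsUnit P := by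
    intro hu
    rw [natDegree_eq_zero_of_isUnit hu] at h0
    exact lt_irrefl _ h0
  obtain ⟨R, hR1, hR2⟩ := WfDvdMonoid.exists_irreducible_factor hnu hP0
  have hRne : R ≠ 0 := hR1.ne_zero
  have hlc : R.leadingCoeff⁻¹ ≠ 0 := inv_ne_zero (leadingCoeff_ne_zero.2 hRne)
  refine ⟨R * C R.leadingCoeff⁻¹, monic_mul_leadingCoeff_inv hRne,
    irreducible_mul_leadingCoeff_inv.2 hR1, ?_, ?_⟩
  · rw [natDegree_mul_C hlc]
    exact (natDegree_le_of_dvd hR2 hP0).trans hD
  · have h1 : IsUnit (C R.leadingCoeff⁻¹ : L[X]) := isUnit_C.2 (isUnit_iff_ne_zero.2 hlc)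
    rw [h1.mul_right_dvd]
    exact hR2.trans hdvd

/-- finitely many exceptions -/
theorem finalP (B : ℝ) (d f D : ℕ) (hd : 0 < d) :
    {β : ℝ | IsPerron β ∧ IsReciprocal β ∧ β ≤ B ∧ ¬ (ParryPowers β).Finite ∧
      ∃ (F L : Type) (_ : Field F) (_ : NumberField F) (_ : Field L) (_ : NumberField L)
        (_ : Algebra F L) (_ : IsGalois F L), Module.finrank ℚ F ≤ f ∧
        (∀ σ τ : L ≃ₐ[F] L, σ ^ d * τ = τ * σ ^ d) ∧
        ∃ P : L[X], 0 < P.natDegree ∧ P.natDegree ≤ D ∧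
          P ∣ (minpoly ℚ (β + β⁻¹)).map (algebraMap ℚ L)}.Finite := by
  obtain ⟨N, hN⟩ := thmP B d f D hd
  refine (perron_finite B (2 * N)).subset ?_
  rintro β ⟨hP, hrec, hβ, hinf, F, L, _, _, _, _, _, _, hf, hcen, P, h0, hD, hdvd⟩
  refine ⟨hP, hβ, (deg_le hP hrec).trans (Nat.mul_le_mul_left 2 ?_)⟩
  by_contra hcon
  push Not at hcon
  have hfd : FiniteDimensional ℚ (TF β) := tf_finite hP hrec
  have hmin : minpoly ℚ (tt β) = minpoly ℚ (β + β⁻¹) :=
    (minpoly.algebraMap_eq (algebraMap (TF β) ℝ).injective (tt β)).symm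
  rw [← hmin] at hdvd
  obtain ⟨Q, hQ⟩ := exists_fac (β := β) h0 hD hdvd
  exact hinf (hN β hP hrec hβ F L Q hQ hf hcen hcon.le)

end Pool.Agent.J4H53.VH
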